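import Mathlib

set_option autoImplicit false

/-!
The signed incidence of the origin with a simplex in `ℝ^m`, and its cocycle property for
generic families of points.
-/

namespace Pool.Agent.H70

/-- Signed maximal minors of `m + 1` vectors in `ℝ^m`. -/
noncomputable def coef {m : ℕ} (v : Fin (m + 1) → Fin m → ℝ) (j : Fin (m + 1)) : ℝ :=
  (-1) ^ (j : ℕ) * (Matrix.of (fun i => v (j.succAbove i))).det

open Classical in
/-- `f0 v` is `1` or `-1` if the origin is in the interior of the simplex with vertices `v`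
(depending on the orientation), and `0` otherwise. -/
noncomputable def f0 {m : ℕ} (v : Fin (m + 1) → Fin m → ℝ) : ℤ :=
  if ∀ j, 0 < coef v j then 1 else if ∀ j, coef v j < 0 then -1 else 0

lemma cramer {m : ℕ} (v : Fin (m + 1) → Fin m → ℝ) : ∑ j, coef v j • v j = 0 := by
  funext a
  rw [Finset.sum_apply]
  simp only [Pi.smul_apply, smul_eq_mul, Pi.zero_apply]
  let N : Matrix (Fin (m + 1)) (Fin (m + 1)) ℝ := Matrix.of fun j => Fin.cons (v j a) (v j)
  have h0 : N.det = 0 := by
    apply Matrix.det_zero_of_column_eq (i := 0) (j := a.succ) (Fin.succ_ne_zero a).symm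
    intro k
    simp [N]
  rw [Matrix.det_succ_column_zero] at h0
  rw [← h0]
  refine Finset.sum_congr rfl (fun j _ => ?_)
  have h1 : N.submatrix j.succAbove Fin.succ = Matrix.of (fun i => v (j.succAbove i)) := by
    ext i k
    simp [N]
  rw [h1, coef]
  simp only [N, Matrix.of_apply, Fin.cons_zero]
  ring

lemma coef_mulVec {m : ℕ} (T : Matrix (Fin m) (Fin m) ℝ) (v : Fin (m + 1) → Fin m → ℝ)
    (j : Fin (m + 1)) : coef (fun i => T.mulVec (v i)) j = T.det * coef v j := by
  have h1 : Matrix.of (fun i => T.mulVec (v (j.succAbove i))) =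
      Matrix.of (fun i => v (j.succAbove i)) * T.transpose := by
    ext i k
    simp [Matrix.mul_apply, Matrix.mulVec, dotProduct, mul_comm]
  rw [coef, coef, h1, Matrix.det_mul, Matrix.det_transpose]
  ring

lemma f0_mulVec {m : ℕ} (T : Matrix (Fin m) (Fin m) ℝ) (hT : 0 < T.det)
    (v : Fin (m + 1) → Fin m → ℝ) : f0 (fun i => T.mulVec (v i)) = f0 v := by
  unfold f0
  simp only [coef_mulVec, mul_pos_iff_of_pos_left hT]
  have : ∀ j, (T.det * coef v j < 0 ↔ coef v j < 0) := fun j => by
    rw [mul_neg_iff]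
    constructor
    · rintro (h | h)
      · exact h.2
      · exact absurd h.1 (not_lt.2 hT.le)
    · intro h
      exact Or.inl ⟨hT, h⟩
  simp only [this]

lemma f0_ne_zero {m : ℕ} {v : Fin (m + 1) → Fin m → ℝ} (h : f0 v ≠ 0) :
    ∃ w : Fin (m + 1) → ℝ, (∀ i, 0 < w i) ∧ ∑ i, w i = 1 ∧ ∑ i, w i • v i = 0 := by
  have key : ∀ u : Fin (m + 1) → ℝ, (∀ i, 0 < u i) → ∑ i, u i • v i = 0 →
      ∃ w : Fin (m + 1) → ℝ, (∀ i, 0 < w i) ∧ ∑ i, w i = 1 ∧ ∑ i, w i • v i = 0 := by
    intro u hu h0
    have hs : 0 < ∑ i, u i := Finset.sum_pos (fun i _ => hu i) Finset.univ_nonempty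
    refine ⟨fun i => (∑ i, u i)⁻¹ * u i, fun i => mul_pos (inv_pos.2 hs) (hu i), ?_, ?_⟩
    · rw [← Finset.mul_sum, inv_mul_cancel₀ hs.ne']
    · simp only [mul_smul]
      rw [← Finset.smul_sum, h0, smul_zero]
  unfold f0 at h
  split_ifs at h with h1 h2
  · exact key _ h1 (cramer v)
  · refine key (fun i => - coef v i) (fun i => by simpa using h2 i) ?_
    simp only [neg_smul, Finset.sum_neg_distrib, cramer, neg_zero]
  · exact absurd rfl h

/-- Abstract data: relation matrix. -/
lemma exists_sink {n : ℕ} {m : ℕ} (v : Fin (n + 2) → Fin m → ℝ) (A : Fin (n + 2) → Fin (n + 2) → ℝ)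
    (h0 : ∀ i, A i i = 0) (hne : ∀ i j, i ≠ j → A i j ≠ 0) (hanti : ∀ i j, A i j = - A j i)
    (hrel : ∀ i, ∑ j, A i j • v j = 0)
    (hind : ∀ (lam : Fin (n + 2) → ℝ) (i k : Fin (n + 2)), i ≠ k → lam i = 0 → lam k = 0 →
      ∑ j, lam j • v j = 0 → lam = 0)
    (i : Fin (n + 2)) (hi : ∀ j, j ≠ i → 0 < A i j) : ∃ k, ∀ j, j ≠ k → A k j < 0 := by
  obtain ⟨l, hl⟩ : ∃ l : Fin (n + 2), l ≠ i := exists_ne i
  have hne' : (Finset.univ.erase i : Finset (Fin (n + 2))).Nonempty := ⟨l, by simp [hl]⟩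
  obtain ⟨k, hk, hmax⟩ := Finset.exists_max_image (Finset.univ.erase i)
    (fun j => A l j / A i j) hne'
  have hki : k ≠ i := (Finset.mem_erase.1 hk).1
  have hAik : 0 < A i k := hi k hki
  set c : ℝ := A l i / A k i with hc
  have hAki : A k i < 0 := by rw [hanti]; linarith
  have hAli : A l i < 0 := by rw [hanti]; linarith [hi l hl]
  have hcpos : 0 < c := div_pos_of_neg_of_neg hAli hAki
  have hlam : (fun j => A l j - (A l k / A i k) * A i j - c * A k j) = 0 := by
    apply hind _ i k hki.symm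
    · simp only [h0, mul_zero, sub_zero]
      rw [hc, div_mul_cancel₀ _ hAki.ne, sub_self]
    · simp only [h0, mul_zero, sub_zero]
      rw [div_mul_cancel₀ _ hAik.ne', sub_self]
    · simp only [sub_smul, mul_smul, Finset.sum_sub_distrib]
      rw [← Finset.smul_sum, ← Finset.smul_sum, hrel, hrel, hrel]
      simp
  refine ⟨k, fun j hj => ?_⟩
  have hj' := congrFun hlam j
  simp only [Pi.zero_apply] at hj'
  by_cases hji : j = i
  · rw [hji]; exact hAki
  · have h1 : 0 < A i j := hi j hji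
    have h2 : A l j / A i j ≤ A l k / A i k := hmax j (Finset.mem_erase.2 ⟨hji, Finset.mem_univ _⟩)
    have h3 : A l j ≤ (A l k / A i k) * A i j := by
      rwa [div_le_iff₀ h1] at h2
    have h4 : c * A k j ≤ 0 := by linarith
    have h5 : A k j ≤ 0 := by
      by_contra h
      push Not at h
      have := mul_pos hcpos h
      linarith
    exact lt_of_le_of_ne h5 (hne k j (Ne.symm hj))

/-- The relation among `v` omitting `i`, with signs. -/
noncomputable def relM {m : ℕ} (v : Fin (m + 2) → Fin m → ℝ) (i : Fin (m + 2)) :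
    Fin (m + 2) → ℝ :=
  Fin.insertNth i (0 : ℝ) (fun j => (-1) ^ (i : ℕ) * coef (fun k => v (i.succAbove k)) j)

lemma relM_self {m : ℕ} (v : Fin (m + 2) → Fin m → ℝ) (i : Fin (m + 2)) : relM v i i = 0 := by
  rw [relM, Fin.insertNth_apply_same]

lemma relM_succAbove {m : ℕ} (v : Fin (m + 2) → Fin m → ℝ) (i : Fin (m + 2)) (j : Fin (m + 1)) :
    relM v i (i.succAbove j) = (-1) ^ (i : ℕ) * coef (fun k => v (i.succAbove k)) j := by
  rw [relM, Fin.insertNth_apply_succAbove]

lemma relM_rel {m : ℕ} (v : Fin (m + 2) → Fin m → ℝ) (i : Fin (m + 2)) :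
    ∑ j, relM v i j • v j = 0 := by
  rw [Fin.sum_univ_succAbove _ i, relM_self, zero_smul, zero_add]
  simp only [relM_succAbove, mul_smul]
  rw [← Finset.smul_sum, cramer (fun k => v (i.succAbove k)), smul_zero]

lemma parity_aux {m : ℕ} (i : Fin (m + 2)) (j : Fin (m + 1)) :
    (-1 : ℝ) ^ (i : ℕ) * (-1) ^ (j : ℕ) =
      - ((-1) ^ ((i.succAbove j : Fin (m + 2)) : ℕ) * (-1) ^ ((j.predAbove i : Fin (m + 1)) : ℕ)) := by
  rcases lt_or_ge j.castSucc i with h | h
  · rw [Fin.succAbove_of_castSucc_lt _ _ h, Fin.predAbove_of_castSucc_lt _ _ h]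
    have h1 : (i : ℕ) = ((i.pred (Fin.ne_zero_of_lt h) : Fin (m + 1)) : ℕ) + 1 := by
      rw [Fin.val_pred]
      have : (j : ℕ) < (i : ℕ) := h
      omega
    rw [h1, pow_succ, Fin.val_castSucc]
    ring
  · rw [Fin.succAbove_of_le_castSucc _ _ h, Fin.predAbove_of_le_castSucc _ _ h]
    rw [Fin.val_succ, Fin.coe_castPred, pow_succ]
    ring

lemma relM_anti {m : ℕ} (v : Fin (m + 2) → Fin m → ℝ) (i j : Fin (m + 2)) :
    relM v i j = - relM v j i := by
  by_cases hij : j = i
  · subst hij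
    simp [relM_self]
  · obtain ⟨j', rfl⟩ := Fin.exists_succAbove_eq hij
    have h1 : i = (i.succAbove j').succAbove (j'.predAbove i) :=
      (Fin.succAbove_succAbove_predAbove i j').symm
    have h2 : relM v (i.succAbove j') i =
        relM v (i.succAbove j') ((i.succAbove j').succAbove (j'.predAbove i)) := by rw [← h1]
    rw [relM_succAbove, h2, relM_succAbove]
    unfold coef
    simp only [Fin.succAbove_succAbove_succAbove_predAbove]
    rw [← mul_assoc, ← mul_assoc, parity_aux]
    ring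

/-- The family `v` is generic: any `m` of its members are linearly independent. -/
def Gen {N m : ℕ} (v : Fin N → Fin m → ℝ) : Prop :=
  ∀ s : Fin m ↪ Fin N, (Matrix.of (fun i => v (s i))).det ≠ 0

lemma relM_ne {m : ℕ} {v : Fin (m + 2) → Fin m → ℝ} (hv : Gen v) (i j : Fin (m + 2))
    (hij : i ≠ j) : relM v i j ≠ 0 := by
  obtain ⟨j', rfl⟩ := Fin.exists_succAbove_eq hij.symm
  rw [relM_succAbove]
  refine mul_ne_zero (pow_ne_zero _ (by norm_num)) (mul_ne_zero (pow_ne_zero _ (by norm_num)) ?_)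
  exact hv ⟨fun k => i.succAbove (j'.succAbove k),
    (Fin.succAbove_right_injective).comp Fin.succAbove_right_injective⟩

lemma gen_ind {m : ℕ} {v : Fin (m + 2) → Fin m → ℝ} (hv : Gen v) (lam : Fin (m + 2) → ℝ)
    (i k : Fin (m + 2)) (hik : i ≠ k) (hi : lam i = 0) (hk : lam k = 0)
    (hrel : ∑ j, lam j • v j = 0) : lam = 0 := by
  obtain ⟨k', rfl⟩ := Fin.exists_succAbove_eq hik.symm
  rw [Fin.sum_univ_succAbove _ i, hi, zero_smul, zero_add, Fin.sum_univ_succAbove _ k', hk,
    zero_smul, zero_add] at hrel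
  have h1 : (fun j => lam (i.succAbove (k'.succAbove j))) = 0 := by
    apply Matrix.eq_zero_of_vecMul_eq_zero (hv ⟨fun k => i.succAbove (k'.succAbove k),
      (Fin.succAbove_right_injective).comp Fin.succAbove_right_injective⟩)
    rw [← hrel]
    funext a
    simp [Matrix.vecMul, dotProduct]
  funext j
  by_cases hji : j = i
  · rw [hji, hi]; rfl
  · obtain ⟨j', rfl⟩ := Fin.exists_succAbove_eq hji
    by_cases hjk : j' = k'
    · rw [hjk, hk]; rfl
    · obtain ⟨j'', rfl⟩ := Fin.exists_succAbove_eq hjk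
      exact congrFun h1 j''

open Classical in
lemma f0_eq_source_sub_sink {m : ℕ} (v : Fin (m + 2) → Fin m → ℝ) (i : Fin (m + 2)) :
    (-1 : ℤ) ^ (i : ℕ) * f0 (fun k => v (i.succAbove k)) =
      (if ∀ j, j ≠ i → 0 < relM v i j then 1 else 0) -
      (if ∀ j, j ≠ i → relM v i j < 0 then 1 else 0) := by
  have hP : (∀ j, j ≠ i → 0 < relM v i j) ↔
      ∀ j, 0 < (-1 : ℝ) ^ (i : ℕ) * coef (fun k => v (i.succAbove k)) j := by
    constructor
    · intro h j
      rw [← relM_succAbove]
      exact h _ (Fin.succAbove_ne i j)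
    · intro h j hj
      obtain ⟨j', rfl⟩ := Fin.exists_succAbove_eq hj
      rw [relM_succAbove]
      exact h j'
  have hN : (∀ j, j ≠ i → relM v i j < 0) ↔
      ∀ j, (-1 : ℝ) ^ (i : ℕ) * coef (fun k => v (i.succAbove k)) j < 0 := by
    constructor
    · intro h j
      rw [← relM_succAbove]
      exact h _ (Fin.succAbove_ne i j)
    · intro h j hj
      obtain ⟨j', rfl⟩ := Fin.exists_succAbove_eq hj
      rw [relM_succAbove]
      exact h j'
  rw [f0]
  rcases Nat.even_or_odd (i : ℕ) with he | ho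
  · simp only [hP, hN, he.neg_one_pow, one_mul]
    split_ifs with h1 h2 h3
    · exact absurd (h1 0) (not_lt.2 (h2 0).le)
    · norm_num
    · norm_num
    · norm_num
  · simp only [hP, hN, ho.neg_one_pow, neg_one_mul]
    simp only [neg_pos, neg_lt_zero]
    split_ifs with h1 h2 h3
    · exact absurd (h1 0) (not_lt.2 (h2 0).le)
    · norm_num
    · norm_num
    · norm_num

/-- The cocycle identity for generic families. -/
theorem f0_cocycle {m : ℕ} {v : Fin (m + 2) → Fin m → ℝ} (hv : Gen v) :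
    ∑ i : Fin (m + 2), (-1 : ℤ) ^ (i : ℕ) * f0 (fun k => v (i.succAbove k)) = 0 := by
  classical
  simp only [f0_eq_source_sub_sink]
  rw [Finset.sum_sub_distrib, sub_eq_zero]
  have hsink : (∃ i, ∀ j, j ≠ i → 0 < relM v i j) → ∃ k, ∀ j, j ≠ k → relM v k j < 0 := by
    rintro ⟨i, hi⟩
    exact exists_sink v (relM v) (relM_self v) (relM_ne hv) (relM_anti v) (relM_rel v)
      (gen_ind hv) i hi
  have hsource : (∃ k, ∀ j, j ≠ k → relM v k j < 0) → (∃ i, ∀ j, j ≠ i → 0 < relM v i j) := by
    rintro ⟨i, hi⟩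
    obtain ⟨k, hk⟩ := exists_sink v (fun i j => - relM v i j) (by simp [relM_self])
      (fun i j hij => neg_ne_zero.2 (relM_ne hv i j hij))
      (fun i j => by rw [relM_anti v i j]) (fun i => by
        simp only [neg_smul, Finset.sum_neg_distrib, relM_rel, neg_zero])
      (gen_ind hv) i (fun j hj => by simpa using hi j hj)
    exact ⟨k, fun j hj => by simpa using hk j hj⟩
  have huniq1 : ∀ i i', (∀ j, j ≠ i → 0 < relM v i j) → (∀ j, j ≠ i' → 0 < relM v i' j) →
      i = i' := by
    intro i i' hi hi'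
    by_contra hne
    have h1 := hi i' (Ne.symm hne)
    have h2 := hi' i hne
    rw [relM_anti] at h2
    linarith
  have huniq2 : ∀ i i', (∀ j, j ≠ i → relM v i j < 0) → (∀ j, j ≠ i' → relM v i' j < 0) →
      i = i' := by
    intro i i' hi hi'
    by_contra hne
    have h1 := hi i' (Ne.symm hne)
    have h2 := hi' i hne
    rw [relM_anti] at h2
    linarith
  by_cases hex : ∃ i, ∀ j, j ≠ i → 0 < relM v i j
  · obtain ⟨k, hk⟩ := hsink hex
    obtain ⟨i, hi⟩ := hex
    rw [Finset.sum_eq_single i, Finset.sum_eq_single k, if_pos hi, if_pos hk]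
    · intro b _ hb
      rw [if_neg]
      intro h
      exact hb (huniq2 _ _ h hk)
    · intro h; exact absurd (Finset.mem_univ _) h
    · intro b _ hb
      rw [if_neg]
      intro h
      exact hb (huniq1 _ _ h hi)
    · intro h; exact absurd (Finset.mem_univ _) h
  · have hex' : ¬ ∃ k, ∀ j, j ≠ k → relM v k j < 0 := fun h => hex (hsource h)
    push Not at hex hex'
    rw [Finset.sum_eq_zero, Finset.sum_eq_zero]
    · intro i _
      rw [if_neg]
      push Not
      exact hex' i
    · intro i _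
      rw [if_neg]
      push Not
      exact hex i

end Pool.Agent.H70
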