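import Mathlib
import Pool.Agent.H70.Sign

set_option autoImplicit false
set_option linter.unusedSectionVars false

/-!
Splittings `ℤ^(α ⊕ β) = L ⊕ L'` and the intersection cochain.
-/

namespace Pool.Agent.H70

open Matrix

variable {α β : Type} [Fintype α] [Fintype β] [DecidableEq α] [DecidableEq β]

/-- Integer matrices as real matrices. -/
noncomputable def toR : GL (α ⊕ β) ℤ →* Matrix (α ⊕ β) (α ⊕ β) ℝ :=
  (RingHom.mapMatrix (Int.castRingHom ℝ)).toMonoidHom.comp (Units.coeHom _)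

lemma toR_apply (g : GL (α ⊕ β) ℤ) (i j : α ⊕ β) :
    toR g i j = (((g : Matrix (α ⊕ β) (α ⊕ β) ℤ) i j : ℤ) : ℝ) := rfl

lemma toR_inv_mul (g : GL (α ⊕ β) ℤ) : toR g⁻¹ * toR g = 1 := by
  rw [← map_mul, inv_mul_cancel, map_one]

lemma toR_mul_inv (g : GL (α ⊕ β) ℤ) : toR g * toR g⁻¹ = 1 := by
  rw [← map_mul, mul_inv_cancel, map_one]

variable (α β) in
/-- The standard idempotent. -/
def p0 (R : Type) [Zero R] [One R] : Matrix (α ⊕ β) (α ⊕ β) R := fromBlocks 1 0 0 0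

variable (α β) in
/-- The Levi subgroup: the matrices commuting with the standard idempotent. -/
def Levi : Subgroup (GL (α ⊕ β) ℤ) where
  carrier := {g | g.val * p0 α β ℤ = p0 α β ℤ * g.val}
  one_mem' := by
    change (1 : GL (α ⊕ β) ℤ).val * p0 α β ℤ = p0 α β ℤ * (1 : GL (α ⊕ β) ℤ).val
    rw [Units.val_one, one_mul, mul_one]
  mul_mem' := by
    intro a b ha hb
    change a.val * p0 α β ℤ = p0 α β ℤ * a.val at ha
    change b.val * p0 α β ℤ = p0 α β ℤ * b.val at hb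
    change (a * b).val * p0 α β ℤ = p0 α β ℤ * (a * b).val
    rw [Units.val_mul, mul_assoc, hb, ← mul_assoc, ha, mul_assoc]
  inv_mem' := by
    intro a ha
    change a.val * p0 α β ℤ = p0 α β ℤ * a.val at ha
    change (a⁻¹).val * p0 α β ℤ = p0 α β ℤ * (a⁻¹).val
    have h : (a⁻¹).val * (a.val * p0 α β ℤ) * (a⁻¹).val =
        (a⁻¹).val * (p0 α β ℤ * a.val) * (a⁻¹).val := by rw [ha]
    rw [← mul_assoc, Units.inv_mul, one_mul, mul_assoc _ _ (a⁻¹).val, mul_assoc (p0 α β ℤ),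
      Units.mul_inv, mul_one] at h
    exact h.symm

lemma mem_Levi {g : GL (α ⊕ β) ℤ} : g ∈ Levi α β ↔
    g.val * p0 α β ℤ = p0 α β ℤ * g.val := Iff.rfl

lemma Levi_blocks {g : GL (α ⊕ β) ℤ} (hg : g ∈ Levi α β) :
    g.val = fromBlocks g.val.toBlocks₁₁ 0 0 g.val.toBlocks₂₂ := by
  rw [mem_Levi, ← fromBlocks_toBlocks g.val, p0, fromBlocks_multiply,
    fromBlocks_multiply] at hg
  simp only [Matrix.mul_one, Matrix.mul_zero, add_zero, Matrix.zero_mul, Matrix.one_mul,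
    fromBlocks_inj] at hg
  conv_lhs => rw [← fromBlocks_toBlocks g.val]
  rw [← hg.2.1, hg.2.2.1]

/-- The `(α, β)` block of a matrix as a vector. -/
def blkv {m : ℕ} (e : Fin m ≃ α × β) (X : Matrix (α ⊕ β) (α ⊕ β) ℝ) : Fin m → ℝ :=
  fun k => X (Sum.inl (e k).1) (Sum.inr (e k).2)

lemma blkv_add {m : ℕ} (e : Fin m ≃ α × β) (X Y : Matrix (α ⊕ β) (α ⊕ β) ℝ) :
    blkv e (X + Y) = blkv e X + blkv e Y := rfl

lemma blkv_smul {m : ℕ} (e : Fin m ≃ α × β) (c : ℝ) (X : Matrix (α ⊕ β) (α ⊕ β) ℝ) :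
    blkv e (c • X) = c • blkv e X := rfl

lemma blkv_sum {m : ℕ} (e : Fin m ≃ α × β) {ι : Type} (s : Finset ι)
    (X : ι → Matrix (α ⊕ β) (α ⊕ β) ℝ) : blkv e (∑ i ∈ s, X i) = ∑ i ∈ s, blkv e (X i) := by
  funext k
  simp [blkv, Matrix.sum_apply]

lemma blkv_eq_zero {m : ℕ} (e : Fin m ≃ α × β) {X : Matrix (α ⊕ β) (α ⊕ β) ℝ} :
    blkv e X = 0 ↔ X.toBlocks₁₂ = 0 := by
  constructor
  · intro h
    ext i j
    have := congrFun h (e.symm (i, j))
    simpa [blkv, Matrix.toBlocks₁₂] using this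
  · intro h
    funext k
    exact congrFun (congrFun h (e k).1) (e k).2

/-- The congruence action of a matrix on a form. -/
noncomputable def cong (G X : Matrix (α ⊕ β) (α ⊕ β) ℝ) : Matrix (α ⊕ β) (α ⊕ β) ℝ :=
  G * X * Gᵀ

lemma cong_mul (G H X : Matrix (α ⊕ β) (α ⊕ β) ℝ) : cong (G * H) X = cong G (cong H X) := by
  simp only [cong, Matrix.transpose_mul, Matrix.mul_assoc]

lemma cong_add (G X Y : Matrix (α ⊕ β) (α ⊕ β) ℝ) : cong G (X + Y) = cong G X + cong G Y := by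
  simp only [cong, Matrix.mul_add, Matrix.add_mul]

lemma cong_smul (G X : Matrix (α ⊕ β) (α ⊕ β) ℝ) (c : ℝ) : cong G (c • X) = c • cong G X := by
  simp only [cong, Matrix.mul_smul, Matrix.smul_mul]

lemma cong_sum (G : Matrix (α ⊕ β) (α ⊕ β) ℝ) {ι : Type} (s : Finset ι)
    (X : ι → Matrix (α ⊕ β) (α ⊕ β) ℝ) : cong G (∑ i ∈ s, X i) = ∑ i ∈ s, cong G (X i) := by
  simp only [cong, Matrix.mul_sum, Matrix.sum_mul]

/-- The matrix of the action of a Levi element on the `(α, β)` block. -/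
noncomputable def leviT {m : ℕ} (e : Fin m ≃ α × β) (h : GL (α ⊕ β) ℤ) :
    Matrix (Fin m) (Fin m) ℝ :=
  (Matrix.kroneckerMap (· * ·) (toR h).toBlocks₁₁ (toR h).toBlocks₂₂).submatrix e e

lemma blkv_cong_Levi {m : ℕ} (e : Fin m ≃ α × β) {h : GL (α ⊕ β) ℤ} (hh : h ∈ Levi α β)
    (X : Matrix (α ⊕ β) (α ⊕ β) ℝ) : blkv e (cong (toR h) X) = (leviT e h).mulVec (blkv e X) := by
  have hb : toR h = fromBlocks (toR h).toBlocks₁₁ 0 0 (toR h).toBlocks₂₂ := by
    have h1 := Levi_blocks hh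
    ext i j
    rw [toR_apply, h1]
    rcases i with i | i <;> rcases j with j | j
    · rfl
    · simp
    · simp
    · rfl
  funext k
  have h2 : cong (toR h) X (Sum.inl (e k).1) (Sum.inr (e k).2) =
      ((toR h).toBlocks₁₁ * X.toBlocks₁₂ * ((toR h).toBlocks₂₂)ᵀ) (e k).1 (e k).2 := by
    rw [cong]
    conv_lhs => rw [hb, ← fromBlocks_toBlocks X]
    rw [fromBlocks_transpose, fromBlocks_multiply, fromBlocks_multiply]
    simp
  rw [blkv, h2]
  simp only [Matrix.mulVec, dotProduct, leviT, Matrix.submatrix_apply, Matrix.kroneckerMap_apply]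
  rw [← Equiv.sum_comp e.symm, Fintype.sum_prod_type]
  simp only [Equiv.apply_symm_apply, Matrix.mul_apply, Finset.sum_mul, blkv,
    Matrix.transpose_apply]
  rw [Finset.sum_comm]
  refine Finset.sum_congr rfl (fun i _ => Finset.sum_congr rfl (fun j _ => ?_))
  simp only [Matrix.toBlocks₁₂, Matrix.of_apply]
  ring

lemma det_leviT {m : ℕ} (e : Fin m ≃ α × β) (ha : Even (Fintype.card α))
    (hb : Even (Fintype.card β)) {h : GL (α ⊕ β) ℤ} (hh : h ∈ Levi α β) :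
    (leviT e h).det = 1 := by
  rw [leviT, Matrix.det_submatrix_equiv_self]
  erw [Matrix.det_kronecker]
  have hb' : h.val = fromBlocks h.val.toBlocks₁₁ 0 0 h.val.toBlocks₂₂ := Levi_blocks hh
  have hdet : h.val.toBlocks₁₁.det * h.val.toBlocks₂₂.det = h.val.det := by
    conv_rhs => rw [hb']
    rw [Matrix.det_fromBlocks_zero₁₂]
  have hu : IsUnit (h.val.toBlocks₁₁.det * h.val.toBlocks₂₂.det) := by
    rw [hdet]
    exact (Matrix.isUnit_iff_isUnit_det _).1 h.isUnit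
  have h1 : IsUnit h.val.toBlocks₁₁.det := isUnit_of_mul_isUnit_left hu
  have h2 : IsUnit h.val.toBlocks₂₂.det := isUnit_of_mul_isUnit_right hu
  have e1 : (toR h).toBlocks₁₁.det = ((h.val.toBlocks₁₁.det : ℤ) : ℝ) := by
    rw [Int.cast_det]
    rfl
  have e2 : (toR h).toBlocks₂₂.det = ((h.val.toBlocks₂₂.det : ℤ) : ℝ) := by
    rw [Int.cast_det]
    rfl
  rw [e1, e2]
  rcases Int.isUnit_iff.1 h1 with h1 | h1 <;> rcases Int.isUnit_iff.1 h2 with h2 | h2 <;>
    simp [h1, h2, ha.neg_one_pow, hb.neg_one_pow]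

end Pool.Agent.H70
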