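import Mathlib
import Pool.Agent.H70.Setup

set_option autoImplicit false
set_option linter.unusedSectionVars false

/-!
Local finiteness of orthogonal splittings.
-/

namespace Pool.Agent.H70

open Matrix

variable {α β : Type} [Fintype α] [Fintype β] [DecidableEq α] [DecidableEq β]

/-- Bounds for a quadratic form. -/
def Bd {n : Type} [Fintype n] (c C : ℝ) (X : Matrix n n ℝ) : Prop :=
  ∀ v : n → ℝ, c * (v ⬝ᵥ v) ≤ v ⬝ᵥ (X *ᵥ v) ∧ v ⬝ᵥ (X *ᵥ v) ≤ C * (v ⬝ᵥ v)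

section forms
variable {n : Type} [Fintype n] [DecidableEq n]

lemma form_symm {X : Matrix n n ℝ} (hX : Xᵀ = X) (v w : n → ℝ) :
    v ⬝ᵥ (X *ᵥ w) = w ⬝ᵥ (X *ᵥ v) := by
  rw [Matrix.dotProduct_mulVec, ← Matrix.mulVec_transpose, hX, dotProduct_comm]

lemma form_adj {X P : Matrix n n ℝ} (hPX : P * X = X * Pᵀ) (v w : n → ℝ) :
    (v ᵥ* P) ⬝ᵥ (X *ᵥ w) = v ⬝ᵥ (X *ᵥ (w ᵥ* P)) := by
  rw [← Matrix.dotProduct_mulVec, Matrix.mulVec_mulVec, hPX, ← Matrix.mulVec_mulVec,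
    Matrix.mulVec_transpose]

lemma form_orth {X P : Matrix n n ℝ} (hP : P * P = P) (hPX : P * X = X * Pᵀ) (v w : n → ℝ) :
    (v ᵥ* P) ⬝ᵥ (X *ᵥ (w - w ᵥ* P)) = 0 := by
  rw [form_adj hPX, Matrix.sub_vecMul, Matrix.vecMul_vecMul, hP, sub_self, Matrix.mulVec_zero,
    dotProduct_zero]

lemma form_pyth {X P : Matrix n n ℝ} (hX : Xᵀ = X) (hP : P * P = P) (hPX : P * X = X * Pᵀ)
    (v : n → ℝ) : v ⬝ᵥ (X *ᵥ v) = (v ᵥ* P) ⬝ᵥ (X *ᵥ (v ᵥ* P)) +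
      (v - v ᵥ* P) ⬝ᵥ (X *ᵥ (v - v ᵥ* P)) := by
  have h1 := form_orth hP hPX v v
  have h2 : v = v ᵥ* P + (v - v ᵥ* P) := by abel
  have h3 : (v - v ᵥ* P) ⬝ᵥ (X *ᵥ (v ᵥ* P)) = 0 := by rw [form_symm hX, h1]
  conv_lhs => rw [h2]
  rw [Matrix.mulVec_add, add_dotProduct, dotProduct_add, dotProduct_add, h1, h3]
  ring

lemma dot_self_nonneg (v : n → ℝ) : 0 ≤ v ⬝ᵥ v :=
  Finset.sum_nonneg (fun i _ => mul_self_nonneg (v i))

lemma idem_bound {X P : Matrix n n ℝ} {c C : ℝ} (hc : 0 < c) (hX : Xᵀ = X) (hP : P * P = P)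
    (hPX : P * X = X * Pᵀ) (hB : Bd c C X) (i j : n) : (P i j) ^ 2 ≤ C / c := by
  have h1 := form_pyth hX hP hPX (Pi.single i 1)
  have h2 := (hB (Pi.single i 1 - Pi.single i 1 ᵥ* P)).1
  have h3 := (hB (Pi.single i 1 ᵥ* P)).1
  have h4 := (hB (Pi.single i 1)).2
  have h5 : (Pi.single i (1 : ℝ) : n → ℝ) ⬝ᵥ Pi.single i 1 = 1 := by simp
  have h6 := mul_nonneg hc.le (dot_self_nonneg (Pi.single i 1 - Pi.single i (1 : ℝ) ᵥ* P))
  have h7 : (P i j) ^ 2 ≤ (Pi.single i (1 : ℝ) ᵥ* P) ⬝ᵥ (Pi.single i 1 ᵥ* P) := by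
    rw [Matrix.single_one_vecMul, dotProduct, pow_two]
    exact Finset.single_le_sum (f := fun k => P.row i k * P.row i k)
      (fun k _ => mul_self_nonneg _) (Finset.mem_univ j)
  rw [h5, mul_one] at h4
  rw [le_div_iff₀ hc]
  calc (P i j) ^ 2 * c = c * (P i j) ^ 2 := mul_comm _ _
    _ ≤ c * ((Pi.single i (1 : ℝ) ᵥ* P) ⬝ᵥ (Pi.single i 1 ᵥ* P)) :=
        mul_le_mul_of_nonneg_left h7 hc.le
    _ ≤ C := by linarith

lemma mulVec_sq_le (M : Matrix n n ℝ) : ∃ K : ℝ, 0 < K ∧ ∀ v : n → ℝ,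
    (M *ᵥ v) ⬝ᵥ (M *ᵥ v) ≤ K * (v ⬝ᵥ v) := by
  refine ⟨∑ i, ∑ j, M i j ^ 2 + 1, ?_, fun v => ?_⟩
  · have : 0 ≤ ∑ i, ∑ j, M i j ^ 2 :=
      Finset.sum_nonneg (fun i _ => Finset.sum_nonneg (fun j _ => sq_nonneg _))
    linarith
  · have h1 : (M *ᵥ v) ⬝ᵥ (M *ᵥ v) ≤ (∑ i, ∑ j, M i j ^ 2) * (v ⬝ᵥ v) := by
      rw [Finset.sum_mul, dotProduct]
      refine Finset.sum_le_sum (fun i _ => ?_)
      have h2 := Finset.sum_mul_sq_le_sq_mul_sq Finset.univ (fun j => M i j) v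
      have h3 : v ⬝ᵥ v = ∑ j, v j ^ 2 := by
        simp only [dotProduct, pow_two]
      rw [h3]
      calc (M *ᵥ v) i * (M *ᵥ v) i = (∑ j, M i j * v j) ^ 2 := by
            rw [pow_two]; rfl
        _ ≤ _ := h2
    have h4 := dot_self_nonneg v
    linarith

lemma form_cong (X G : Matrix n n ℝ) (v w : n → ℝ) :
    v ⬝ᵥ ((G * X * Gᵀ) *ᵥ w) = (Gᵀ *ᵥ v) ⬝ᵥ (X *ᵥ (Gᵀ *ᵥ w)) := by
  rw [← Matrix.mulVec_mulVec, ← Matrix.mulVec_mulVec, Matrix.dotProduct_mulVec,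
    Matrix.mulVec_transpose G v]

lemma Bd_cong {X : Matrix n n ℝ} {c C : ℝ} (hc : 0 < c) (hB : Bd c C X)
    {G H : Matrix n n ℝ} (hGH : G * H = 1) :
    ∃ c' C', 0 < c' ∧ Bd c' C' (G * X * Gᵀ) := by
  obtain ⟨K, hK, hK'⟩ := mulVec_sq_le Gᵀ
  obtain ⟨L, hL, hL'⟩ := mulVec_sq_le Hᵀ
  refine ⟨c / L, |C| * K, div_pos hc hL, fun v => ?_⟩
  rw [form_cong]
  have h1 := hB (Gᵀ *ᵥ v)
  have h2 := hK' v
  have h3 := hL' (Gᵀ *ᵥ v)
  have h4 : Hᵀ *ᵥ (Gᵀ *ᵥ v) = v := by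
    rw [Matrix.mulVec_mulVec, ← Matrix.transpose_mul, hGH, Matrix.transpose_one,
      Matrix.one_mulVec]
  rw [h4] at h3
  have h5 := dot_self_nonneg v
  have h6 := dot_self_nonneg (Gᵀ *ᵥ v)
  constructor
  · calc c / L * (v ⬝ᵥ v) ≤ c / L * (L * ((Gᵀ *ᵥ v) ⬝ᵥ (Gᵀ *ᵥ v))) :=
          mul_le_mul_of_nonneg_left h3 (div_pos hc hL).le
      _ = c * ((Gᵀ *ᵥ v) ⬝ᵥ (Gᵀ *ᵥ v)) := by
          field_simp
      _ ≤ _ := h1.1
  · calc (Gᵀ *ᵥ v) ⬝ᵥ (X *ᵥ (Gᵀ *ᵥ v)) ≤ C * ((Gᵀ *ᵥ v) ⬝ᵥ (Gᵀ *ᵥ v)) := h1.2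
      _ ≤ |C| * ((Gᵀ *ᵥ v) ⬝ᵥ (Gᵀ *ᵥ v)) := mul_le_mul_of_nonneg_right (le_abs_self C) h6
      _ ≤ |C| * (K * (v ⬝ᵥ v)) := mul_le_mul_of_nonneg_left h2 (abs_nonneg C)
      _ = _ := by ring

lemma Bd_sum {ι : Type} [Fintype ι] {X : ι → Matrix n n ℝ} {w : ι → ℝ} {c C : ℝ}
    (hw : ∀ i, 0 ≤ w i) (hw1 : ∑ i, w i = 1) (hB : ∀ i, Bd c C (X i)) :
    Bd c C (∑ i, w i • X i) := by
  intro v
  have h : v ⬝ᵥ ((∑ i, w i • X i) *ᵥ v) = ∑ i, w i * (v ⬝ᵥ (X i *ᵥ v)) := by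
    rw [Matrix.sum_mulVec, dotProduct_sum]
    refine Finset.sum_congr rfl (fun i _ => ?_)
    rw [Matrix.smul_mulVec, dotProduct_smul, smul_eq_mul]
  rw [h]
  constructor
  · calc c * (v ⬝ᵥ v) = ∑ i, w i * (c * (v ⬝ᵥ v)) := by rw [← Finset.sum_mul, hw1, one_mul]
      _ ≤ _ := Finset.sum_le_sum (fun i _ => mul_le_mul_of_nonneg_left (hB i v).1 (hw i))
  · calc ∑ i, w i * (v ⬝ᵥ (X i *ᵥ v)) ≤ ∑ i, w i * (C * (v ⬝ᵥ v)) :=
          Finset.sum_le_sum (fun i _ => mul_le_mul_of_nonneg_left (hB i v).2 (hw i))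
      _ = _ := by rw [← Finset.sum_mul, hw1, one_mul]

lemma Bd_mono {X : Matrix n n ℝ} {c c' C C' : ℝ} (h : Bd c C X) (hc : c' ≤ c) (hC : C ≤ C') :
    Bd c' C' X := fun v =>
  ⟨(mul_le_mul_of_nonneg_right hc (dot_self_nonneg v)).trans (h v).1,
    (h v).2.trans (mul_le_mul_of_nonneg_right hC (dot_self_nonneg v))⟩

end forms

/-- The form `X` splits orthogonally along the decomposition given by `g`. -/
def Splits (g : GL (α ⊕ β) ℤ) (X : Matrix (α ⊕ β) (α ⊕ β) ℝ) : Prop :=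
  (cong (toR g⁻¹) X).toBlocks₁₂ = 0

/-- The integral idempotent of a decomposition. -/
def idem (g : GL (α ⊕ β) ℤ) : Matrix (α ⊕ β) (α ⊕ β) ℤ := g.val * p0 α β ℤ * (g⁻¹).val

lemma idem_idem (g : GL (α ⊕ β) ℤ) : idem g * idem g = idem g := by
  have h : p0 α β ℤ * p0 α β ℤ = p0 α β ℤ := by
    rw [p0, fromBlocks_multiply]
    simp
  calc idem g * idem g = g.val * p0 α β ℤ * ((g⁻¹).val * g.val) * p0 α β ℤ * (g⁻¹).val := by
        simp only [idem, Matrix.mul_assoc]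
    _ = g.val * (p0 α β ℤ * p0 α β ℤ) * (g⁻¹).val := by
        rw [Units.inv_mul, mul_one]
        simp only [Matrix.mul_assoc]
    _ = _ := by rw [h, idem]

lemma idem_eq_iff (g g' : GL (α ⊕ β) ℤ) : idem g = idem g' ↔ g⁻¹ * g' ∈ Levi α β := by
  rw [mem_Levi, idem, idem]
  constructor
  · intro h
    have h1 : (g⁻¹).val * (g.val * p0 α β ℤ * (g⁻¹).val) * g'.val =
        (g⁻¹).val * (g'.val * p0 α β ℤ * (g'⁻¹).val) * g'.val := by rw [h]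
    have h2 : (g⁻¹).val * (g.val * p0 α β ℤ * (g⁻¹).val) * g'.val =
        ((g⁻¹).val * g.val) * p0 α β ℤ * ((g⁻¹).val * g'.val) := by simp only [Matrix.mul_assoc]
    have h3 : (g⁻¹).val * (g'.val * p0 α β ℤ * (g'⁻¹).val) * g'.val =
        ((g⁻¹).val * g'.val) * p0 α β ℤ * ((g'⁻¹).val * g'.val) := by simp only [Matrix.mul_assoc]
    rw [h2, h3, Units.inv_mul, Units.inv_mul, one_mul, mul_one] at h1
    rw [Units.val_mul]
    exact h1.symm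
  · intro h
    rw [Units.val_mul] at h
    have h1 : g.val * ((g⁻¹).val * g'.val * p0 α β ℤ) * (g'⁻¹).val =
        g.val * (p0 α β ℤ * ((g⁻¹).val * g'.val)) * (g'⁻¹).val := by rw [h]
    have h2 : g.val * ((g⁻¹).val * g'.val * p0 α β ℤ) * (g'⁻¹).val =
        (g.val * (g⁻¹).val) * (g'.val * p0 α β ℤ * (g'⁻¹).val) := by simp only [Matrix.mul_assoc]
    have h3 : g.val * (p0 α β ℤ * ((g⁻¹).val * g'.val)) * (g'⁻¹).val =
        g.val * p0 α β ℤ * (g⁻¹).val * (g'.val * (g'⁻¹).val) := by simp only [Matrix.mul_assoc]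
    rw [h2, h3, Units.mul_inv, Units.mul_inv, one_mul, mul_one] at h1
    exact h1.symm

/-- The real version of the idempotent. -/
noncomputable def idemR (g : GL (α ⊕ β) ℤ) : Matrix (α ⊕ β) (α ⊕ β) ℝ :=
  (idem g).map (Int.castRingHom ℝ)

lemma idemR_eq (g : GL (α ⊕ β) ℤ) : idemR g = toR g * p0 α β ℝ * toR g⁻¹ := by
  have h : (p0 α β ℤ).map (Int.castRingHom ℝ) = p0 α β ℝ := by
    ext i j
    rcases i with i | i <;> rcases j with j | j <;>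
      simp [p0, Matrix.one_apply, apply_ite]
  rw [idemR, idem, Matrix.map_mul, Matrix.map_mul, h]
  rfl

lemma idemR_idem (g : GL (α ⊕ β) ℤ) : idemR g * idemR g = idemR g := by
  rw [idemR, ← Matrix.map_mul, idem_idem]

lemma idemR_adj {g : GL (α ⊕ β) ℤ} {X : Matrix (α ⊕ β) (α ⊕ β) ℝ} (hX : Xᵀ = X)
    (hs : Splits g X) : idemR g * X = X * (idemR g)ᵀ := by
  set Z := cong (toR g⁻¹) X with hZ
  have hZt : Zᵀ = Z := by
    rw [hZ, cong]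
    simp only [Matrix.transpose_mul, Matrix.transpose_transpose, hX, Matrix.mul_assoc]
  have h12 : Z.toBlocks₁₂ = 0 := hs
  have h21 : Z.toBlocks₂₁ = 0 := by
    have : Z.toBlocks₂₁ = (Z.toBlocks₁₂)ᵀ := by
      conv_lhs => rw [← hZt]
      rfl
    rw [this, h12, Matrix.transpose_zero]
  have hp : p0 α β ℝ * Z = Z * p0 α β ℝ := by
    rw [← fromBlocks_toBlocks Z, h12, h21, p0, fromBlocks_multiply, fromBlocks_multiply]
    simp
  have hpt : (p0 α β ℝ)ᵀ = p0 α β ℝ := by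
    rw [p0, fromBlocks_transpose]
    simp
  have hXZ : X = toR g * Z * (toR g)ᵀ := by
    rw [hZ, cong]
    have h1 : toR g * (toR g⁻¹ * X * (toR g⁻¹)ᵀ) * (toR g)ᵀ =
        (toR g * toR g⁻¹) * X * ((toR g * toR g⁻¹)ᵀ) := by
      simp only [Matrix.transpose_mul, Matrix.mul_assoc]
    rw [h1, toR_mul_inv]
    simp
  rw [idemR_eq]
  simp only [Matrix.transpose_mul, hpt]
  calc toR g * p0 α β ℝ * toR g⁻¹ * X
      = toR g * p0 α β ℝ * (toR g⁻¹ * toR g) * Z * (toR g)ᵀ := by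
        conv_lhs => rw [hXZ]
        simp only [Matrix.mul_assoc]
    _ = toR g * (p0 α β ℝ * Z) * (toR g)ᵀ := by
        rw [toR_inv_mul, Matrix.mul_one]
        simp only [Matrix.mul_assoc]
    _ = toR g * (Z * p0 α β ℝ) * (toR g)ᵀ := by rw [hp]
    _ = toR g * Z * ((toR g⁻¹ * toR g)ᵀ) * (p0 α β ℝ * (toR g)ᵀ) := by
        rw [toR_inv_mul]
        simp only [Matrix.transpose_one, Matrix.mul_one, Matrix.mul_assoc]
    _ = X * ((toR g⁻¹)ᵀ * (p0 α β ℝ * (toR g)ᵀ)) := by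
        conv_rhs => rw [hXZ]
        simp only [Matrix.transpose_mul, Matrix.mul_assoc]

lemma finite_bounded_int {n : Type} [Fintype n] (K : ℤ) :
    {M : Matrix n n ℤ | ∀ i j, M i j ∈ Set.Icc (-K) K}.Finite := by
  have h : {M : Matrix n n ℤ | ∀ i j, M i j ∈ Set.Icc (-K) K} =
      Set.pi Set.univ (fun _ : n => Set.pi Set.univ (fun _ : n => Set.Icc (-K) K)) := by
    ext M
    exact ⟨fun h i _ j _ => h i j, fun h i j => h i trivial j trivial⟩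
  rw [h]
  exact Set.Finite.pi (fun _ => Set.Finite.pi (fun _ => Set.finite_Icc _ _))

/-- Local finiteness. -/
theorem finite_splits (c C : ℝ) (hc : 0 < c) :
    {q : GL (α ⊕ β) ℤ ⧸ Levi α β | ∃ X : Matrix (α ⊕ β) (α ⊕ β) ℝ, Xᵀ = X ∧ Bd c C X ∧
      ∀ g : GL (α ⊕ β) ℤ, (g : GL (α ⊕ β) ℤ ⧸ Levi α β) = q → Splits g X}.Finite := by
  obtain ⟨K, hK⟩ : ∃ K : ℤ, C / c + 1 ≤ K := ⟨⌈C / c + 1⌉, Int.le_ceil _⟩
  let f : GL (α ⊕ β) ℤ ⧸ Levi α β → Matrix (α ⊕ β) (α ⊕ β) ℤ := fun q => idem q.out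
  have hf : Function.Injective f := by
    intro q q' h
    have h1 := (idem_eq_iff _ _).1 h
    rw [← QuotientGroup.eq] at h1
    simpa using h1
  apply Set.Finite.subset ((finite_bounded_int (n := α ⊕ β) K).preimage hf.injOn)
  rintro q ⟨X, hX, hB, hs⟩
  intro i j
  have hs' := hs q.out (by simp)
  have h1 := idem_bound hc hX (idemR_idem q.out) (idemR_adj hX hs') hB i j
  have h2 : idemR q.out i j = ((idem q.out i j : ℤ) : ℝ) := rfl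
  rw [h2] at h1
  change idem q.out i j ∈ Set.Icc (-K) K
  have h3 : ((idem q.out i j : ℤ) : ℝ) ^ 2 ≤ K := by linarith
  have h4 : (idem q.out i j) ^ 2 ≤ K := by exact_mod_cast h3
  constructor
  · nlinarith
  · nlinarith

end Pool.Agent.H70
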