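import Mathlib
import Pool.Agent.H70.Finite

set_option autoImplicit false
set_option linter.unusedSectionVars false

/-!
The intersection cochain of `GL (α ⊕ β) ℤ`.
-/

namespace Pool.Agent.H70

open Matrix

variable {α β : Type} [Fintype α] [Fintype β] [DecidableEq α] [DecidableEq β]
variable {m : ℕ} (e : Fin m ≃ α × β)

/-- The `(α, β)` block of the transform by `g` of the symmetric form `y + yᵀ`. -/
noncomputable def Lg (g : GL (α ⊕ β) ℤ) (y : Matrix (α ⊕ β) (α ⊕ β) ℝ) : Fin m → ℝ :=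
  blkv e (cong (toR g) (y + yᵀ))

lemma Lg_Levi (ha : Even (Fintype.card α)) (hb : Even (Fintype.card β))
    {h : GL (α ⊕ β) ℤ} (hh : h ∈ Levi α β) :
    ∃ T : Matrix (Fin m) (Fin m) ℝ, 0 < T.det ∧ ∀ g y, Lg e (h * g) y = T.mulVec (Lg e g y) := by
  refine ⟨leviT e h, by rw [det_leviT e ha hb hh]; norm_num, fun g y => ?_⟩
  rw [Lg, map_mul, cong_mul, blkv_cong_Levi e hh]
  rfl

/-- The contribution of a decomposition. -/
noncomputable def term (γ : Fin (m + 1) → GL (α ⊕ β) ℤ)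
    (z : Fin (m + 1) → Matrix (α ⊕ β) (α ⊕ β) ℝ) (q : GL (α ⊕ β) ℤ ⧸ Levi α β) : ℤ :=
  f0 (fun i => Lg e (q.out⁻¹ * γ i) (z i))

lemma term_mk (ha : Even (Fintype.card α)) (hb : Even (Fintype.card β))
    (γ : Fin (m + 1) → GL (α ⊕ β) ℤ) (z : Fin (m + 1) → Matrix (α ⊕ β) (α ⊕ β) ℝ)
    (g : GL (α ⊕ β) ℤ) :
    term e γ z (g : GL (α ⊕ β) ℤ ⧸ Levi α β) = f0 (fun i => Lg e (g⁻¹ * γ i) (z i)) := by
  obtain ⟨⟨h, hh⟩, hg⟩ := QuotientGroup.mk_out_eq_mul (Levi α β) g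
  rw [term, hg]
  simp only
  obtain ⟨T, hT, hT'⟩ := Lg_Levi e ha hb (inv_mem hh)
  have : ∀ i, Lg e ((g * h)⁻¹ * γ i) (z i) = T.mulVec (Lg e (g⁻¹ * γ i) (z i)) := by
    intro i
    rw [_root_.mul_inv_rev, mul_assoc, hT']
  simp only [this]
  exact f0_mulVec T hT _

lemma hull_split (γ : Fin (m + 1) → GL (α ⊕ β) ℤ)
    (z : Fin (m + 1) → Matrix (α ⊕ β) (α ⊕ β) ℝ) (w : Fin (m + 1) → ℝ) (g : GL (α ⊕ β) ℤ) :
    ∑ i, w i • Lg e (g⁻¹ * γ i) (z i) = 0 ↔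
      Splits g (∑ i, w i • cong (toR (γ i)) (z i + (z i)ᵀ)) := by
  rw [Splits, ← blkv_eq_zero e, cong_sum, blkv_sum]
  simp only [cong_smul, blkv_smul, ← cong_mul, ← map_mul]
  rfl

lemma sum_cong_symm (γ : Fin (m + 1) → GL (α ⊕ β) ℤ)
    (z : Fin (m + 1) → Matrix (α ⊕ β) (α ⊕ β) ℝ) (w : Fin (m + 1) → ℝ) :
    (∑ i, w i • cong (toR (γ i)) (z i + (z i)ᵀ))ᵀ =
      ∑ i, w i • cong (toR (γ i)) (z i + (z i)ᵀ) := by
  rw [Matrix.transpose_sum]
  refine Finset.sum_congr rfl (fun i _ => ?_)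
  rw [Matrix.transpose_smul, cong]
  simp only [Matrix.transpose_mul, Matrix.transpose_add, Matrix.transpose_transpose,
    Matrix.mul_assoc]
  rw [add_comm]

lemma term_support (ha : Even (Fintype.card α)) (hb : Even (Fintype.card β))
    (γ : Fin (m + 1) → GL (α ⊕ β) ℤ) (z : Fin (m + 1) → Matrix (α ⊕ β) (α ⊕ β) ℝ)
    {c C : ℝ} (hB : ∀ i, Bd c C (cong (toR (γ i)) (z i + (z i)ᵀ)))
    {q : GL (α ⊕ β) ℤ ⧸ Levi α β} (h : term e γ z q ≠ 0) :
    ∃ X : Matrix (α ⊕ β) (α ⊕ β) ℝ, Xᵀ = X ∧ Bd c C X ∧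
      ∀ g : GL (α ⊕ β) ℤ, (g : GL (α ⊕ β) ℤ ⧸ Levi α β) = q → Splits g X := by
  induction q using QuotientGroup.induction_on with
  | H k =>
    rw [term_mk e ha hb] at h
    obtain ⟨w, hw, hw1, hw0⟩ := f0_ne_zero h
    rw [hull_split] at hw0
    refine ⟨_, sum_cong_symm γ z w, Bd_sum (fun i => (hw i).le) hw1 hB, ?_⟩
    intro g hg
    rw [Splits, ← blkv_eq_zero e] at hw0 ⊢
    have hgk : g⁻¹ * k ∈ Levi α β := QuotientGroup.eq.1 hg
    have : toR g⁻¹ = toR (g⁻¹ * k) * toR k⁻¹ := by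
      rw [← map_mul, mul_assoc, mul_inv_cancel, mul_one]
    rw [this, cong_mul, blkv_cong_Levi e hgk, hw0, Matrix.mulVec_zero]

/-- Positive definite base points. -/
def Pos (y : Matrix (α ⊕ β) (α ⊕ β) ℝ) : Prop := ∃ c C : ℝ, 0 < c ∧ Bd c C (y + yᵀ)

lemma uniform_bounds {n : Type} [Fintype n] [DecidableEq n] {k : ℕ}
    (X : Fin (k + 1) → Matrix n n ℝ)
    (h : ∀ i, ∃ c C : ℝ, 0 < c ∧ Bd c C (X i)) : ∃ c C : ℝ, 0 < c ∧ ∀ i, Bd c C (X i) := by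
  choose c C hc hB using h
  refine ⟨Finset.univ.inf' Finset.univ_nonempty c, Finset.univ.sup' Finset.univ_nonempty C, ?_,
    fun i => Bd_mono (hB i) (Finset.inf'_le _ (Finset.mem_univ i))
      (Finset.le_sup' _ (Finset.mem_univ i))⟩
  rw [Finset.lt_inf'_iff]
  exact fun i _ => hc i

lemma term_finite (ha : Even (Fintype.card α)) (hb : Even (Fintype.card β))
    (γ : Fin (m + 1) → GL (α ⊕ β) ℤ) (z : Fin (m + 1) → Matrix (α ⊕ β) (α ⊕ β) ℝ)
    (hz : ∀ i, Pos (z i)) : (Function.support (term e γ z)).Finite := by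
  obtain ⟨c, C, hc, hB⟩ := uniform_bounds (fun i => cong (toR (γ i)) (z i + (z i)ᵀ)) (fun i => by
    obtain ⟨c, C, hc, hB⟩ := hz i
    obtain ⟨c', C', hc', hB'⟩ := Bd_cong hc hB (toR_mul_inv (γ i))
    exact ⟨c', C', hc', hB'⟩)
  refine (finite_splits (α := α) (β := β) c C hc).subset ?_
  intro q hq
  exact term_support e ha hb γ z hB hq

/-- The intersection number of the simplex with vertices `γ i • (z i + (z i)ᵀ)` with the locus of
split forms. -/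
noncomputable def Psi (γ : Fin (m + 1) → GL (α ⊕ β) ℤ)
    (z : Fin (m + 1) → Matrix (α ⊕ β) (α ⊕ β) ℝ) : ℤ := ∑ᶠ q, term e γ z q

lemma Psi_inv (ha : Even (Fintype.card α)) (hb : Even (Fintype.card β))
    (g : GL (α ⊕ β) ℤ) (γ : Fin (m + 1) → GL (α ⊕ β) ℤ)
    (z : Fin (m + 1) → Matrix (α ⊕ β) (α ⊕ β) ℝ) :
    Psi e (fun i => g * γ i) z = Psi e γ z := by
  rw [Psi, Psi, ← finsum_comp_equiv (MulAction.toPerm g⁻¹ :
    Equiv.Perm (GL (α ⊕ β) ℤ ⧸ Levi α β)) (f := term e γ z)]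
  refine finsum_congr (fun q => ?_)
  induction q using QuotientGroup.induction_on with
  | H k =>
    rw [term_mk e ha hb]
    have : (MulAction.toPerm g⁻¹ : Equiv.Perm (GL (α ⊕ β) ℤ ⧸ Levi α β)) (k : GL (α ⊕ β) ℤ ⧸ Levi α β)
        = ((g⁻¹ * k : GL (α ⊕ β) ℤ) : GL (α ⊕ β) ℤ ⧸ Levi α β) := rfl
    rw [this, term_mk e ha hb]
    simp only [_root_.mul_inv_rev, inv_inv, mul_assoc]

/-- Generic base points. -/
def GenB (z : Fin (m + 2) → Matrix (α ⊕ β) (α ⊕ β) ℝ) : Prop :=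
  ∀ γ : Fin (m + 2) → GL (α ⊕ β) ℤ, Gen (fun i => Lg e (γ i) (z i))

lemma GenB_perm {z : Fin (m + 2) → Matrix (α ⊕ β) (α ⊕ β) ℝ} (hz : GenB e z)
    (c : Equiv.Perm (Fin (m + 2))) : GenB e (z ∘ c) := by
  intro γ s
  have := hz (γ ∘ c.symm) (s.trans c.toEmbedding)
  simpa using this

lemma term_cocycle (γ : Fin (m + 2) → GL (α ⊕ β) ℤ) (z : Fin (m + 2) → Matrix (α ⊕ β) (α ⊕ β) ℝ)
    (hz : GenB e z) (q : GL (α ⊕ β) ℤ ⧸ Levi α β) :
    ∑ i : Fin (m + 2), (-1 : ℤ) ^ (i : ℕ) *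
      term e (fun k => γ (i.succAbove k)) (fun k => z (i.succAbove k)) q = 0 := by
  have h := hz (fun i => q.out⁻¹ * γ i)
  generalize hv : (fun i => Lg e ((fun i => q.out⁻¹ * γ i) i) (z i)) = v at h
  have h1 := f0_cocycle h
  rw [← h1]
  refine Finset.sum_congr rfl (fun i _ => ?_)
  congr 1
  rw [term]
  congr 1
  funext k
  rw [← hv]

lemma Psi_cocycle (ha : Even (Fintype.card α)) (hb : Even (Fintype.card β))
    (γ : Fin (m + 2) → GL (α ⊕ β) ℤ) (z : Fin (m + 2) → Matrix (α ⊕ β) (α ⊕ β) ℝ)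
    (hz : GenB e z) (hpos : ∀ i, Pos (z i)) :
    ∑ i : Fin (m + 2), (-1 : ℤ) ^ (i : ℕ) *
      Psi e (fun k => γ (i.succAbove k)) (fun k => z (i.succAbove k)) = 0 := by
  have hfin : ∀ i : Fin (m + 2), (Function.support (fun q : GL (α ⊕ β) ℤ ⧸ Levi α β =>
      (-1 : ℤ) ^ (i : ℕ) *
        term e (fun k => γ (i.succAbove k)) (fun k => z (i.succAbove k)) q)).Finite := by
    intro i
    refine (term_finite e ha hb (fun k => γ (i.succAbove k)) (fun k => z (i.succAbove k))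
      (fun j => hpos _)).subset ?_
    intro q hq h0
    exact hq (by simp only [h0, mul_zero])
  have h1 : ∀ i : Fin (m + 2), (-1 : ℤ) ^ (i : ℕ) *
      Psi e (fun k => γ (i.succAbove k)) (fun k => z (i.succAbove k)) =
      ∑ᶠ q, (-1 : ℤ) ^ (i : ℕ) *
        term e (fun k => γ (i.succAbove k)) (fun k => z (i.succAbove k)) q := by
    intro i
    rw [Psi, mul_finsum]
  have h2 := finsum_sum_comm (Finset.univ : Finset (Fin (m + 2)))
    (fun (q : GL (α ⊕ β) ℤ ⧸ Levi α β) i =>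
      (-1 : ℤ) ^ (i : ℕ) *
        term e (fun k => γ (i.succAbove k)) (fun k => z (i.succAbove k)) q) (fun i _ => hfin i)
  rw [Finset.sum_congr rfl (fun i _ => h1 i), ← h2,
    finsum_congr (fun q => term_cocycle e γ z hz q), finsum_zero]

/-- The cochain obtained by averaging over colourings. -/
noncomputable def Fco (y : Fin (m + 2) → Matrix (α ⊕ β) (α ⊕ β) ℝ)
    (γ : Fin (m + 1) → GL (α ⊕ β) ℤ) : ℤ :=
  ∑ c : Equiv.Perm (Fin (m + 2)), Psi e γ (fun i => y (c i.castSucc))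

lemma Fco_inv (ha : Even (Fintype.card α)) (hb : Even (Fintype.card β))
    (y : Fin (m + 2) → Matrix (α ⊕ β) (α ⊕ β) ℝ)
    (g : GL (α ⊕ β) ℤ) (γ : Fin (m + 1) → GL (α ⊕ β) ℤ) :
    Fco e y (fun i => g * γ i) = Fco e y γ := by
  simp only [Fco, Psi_inv e ha hb]

lemma Fco_face (y : Fin (m + 2) → Matrix (α ⊕ β) (α ⊕ β) ℝ)
    (γ : Fin (m + 2) → GL (α ⊕ β) ℤ) (i : Fin (m + 2)) : Fco e y (fun k => γ (i.succAbove k)) =
      ∑ c : Equiv.Perm (Fin (m + 2)), Psi e (fun k => γ (i.succAbove k))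
        (fun k => (y ∘ c) (i.succAbove k)) := by
  let τ : Equiv.Perm (Fin (m + 2)) :=
    (finSuccEquiv' (Fin.last (m + 1))).trans (finSuccEquiv' i).symm
  have hτ : ∀ j : Fin (m + 1), τ j.castSucc = i.succAbove j := by
    intro j
    have : j.castSucc = (Fin.last (m + 1)).succAbove j := by
      rw [Fin.succAbove_last]
    rw [this]
    simp only [τ, Equiv.trans_apply, finSuccEquiv'_succAbove, finSuccEquiv'_symm_some]
  rw [Fco, ← Equiv.sum_comp (Equiv.mulRight τ)]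
  refine Finset.sum_congr rfl (fun c _ => ?_)
  congr 1
  funext j
  simp only [Equiv.coe_mulRight, Equiv.Perm.mul_apply, hτ, Function.comp_apply]

lemma Fco_cocycle (ha : Even (Fintype.card α)) (hb : Even (Fintype.card β))
    (y : Fin (m + 2) → Matrix (α ⊕ β) (α ⊕ β) ℝ) (hy : GenB e y) (hpos : ∀ i, Pos (y i))
    (γ : Fin (m + 2) → GL (α ⊕ β) ℤ) :
    ∑ i : Fin (m + 2), (-1 : ℤ) ^ (i : ℕ) * Fco e y (fun k => γ (i.succAbove k)) = 0 := by
  simp only [Fco_face, Finset.mul_sum]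
  rw [Finset.sum_comm]
  refine Finset.sum_eq_zero (fun c _ => ?_)
  exact Psi_cocycle e ha hb γ (y ∘ c) (GenB_perm e hy c) (fun i => hpos _)

end Pool.Agent.H70
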