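import Mathlib
import Pool.Agent.H70.Cochain

set_option autoImplicit false
set_option linter.unusedSectionVars false

/-!
Existence of generic base points (Baire category).
-/

namespace Pool.Agent.H70

open Matrix

variable {α β : Type} [Fintype α] [Fintype β] [DecidableEq α] [DecidableEq β]
variable {m : ℕ} (e : Fin m ≃ α × β)

lemma Lg_add (g : GL (α ⊕ β) ℤ) (y z : Matrix (α ⊕ β) (α ⊕ β) ℝ) :
    Lg e g (y + z) = Lg e g y + Lg e g z := by
  rw [Lg, Lg, Lg, ← blkv_add, ← cong_add, Matrix.transpose_add]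
  congr 2
  abel

lemma Lg_smul (g : GL (α ⊕ β) ℤ) (c : ℝ) (y : Matrix (α ⊕ β) (α ⊕ β) ℝ) :
    Lg e g (c • y) = c • Lg e g y := by
  rw [Lg, Lg, ← blkv_smul, ← cong_smul, Matrix.transpose_smul, smul_add]

/-- `Lg` as a linear map. -/
noncomputable def LgLin (g : GL (α ⊕ β) ℤ) : (α ⊕ β → α ⊕ β → ℝ) →ₗ[ℝ] (Fin m → ℝ) where
  toFun y := Lg e g (Matrix.of y)
  map_add' y z := Lg_add e g (Matrix.of y) (Matrix.of z)
  map_smul' c y := Lg_smul e g c (Matrix.of y)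

lemma LgLin_apply (g : GL (α ⊕ β) ℤ) (y : Matrix (α ⊕ β) (α ⊕ β) ℝ) :
    LgLin e g y = Lg e g y := rfl

lemma Lg_surj (g : GL (α ⊕ β) ℤ) (v : Fin m → ℝ) : ∃ y, Lg e g y = v := by
  let M : Matrix α β ℝ := Matrix.of fun i j => v (e.symm (i, j))
  let N : Matrix (α ⊕ β) (α ⊕ β) ℝ := fromBlocks 0 M 0 0
  refine ⟨cong (toR g⁻¹) N, ?_⟩
  have h1 : (cong (toR g⁻¹) N)ᵀ = cong (toR g⁻¹) Nᵀ := by
    simp only [cong, Matrix.transpose_mul, Matrix.transpose_transpose, Matrix.mul_assoc]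
  rw [Lg, h1, ← cong_add, ← cong_mul, toR_mul_inv]
  funext k
  simp [blkv, cong, N, M, fromBlocks_transpose, fromBlocks_add]

lemma countable_GL (n : Type) [Fintype n] [DecidableEq n] : Countable (GL n ℤ) := by
  have : Countable (Matrix n n ℤ) := inferInstanceAs (Countable (n → n → ℤ))
  exact Function.Injective.countable (f := fun g : GL n ℤ => g.val) (fun a b h => Units.ext h)

/-- The determinant to be avoided. -/
noncomputable def Dfun (s : Fin m ↪ Fin (m + 2)) (γ : Fin (m + 2) → GL (α ⊕ β) ℤ)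
    (y : Fin (m + 2) → (α ⊕ β → α ⊕ β → ℝ)) : ℝ :=
  (Matrix.of (fun j => LgLin e (γ (s j)) (y (s j)))).det

lemma Dfun_analytic (s : Fin m ↪ Fin (m + 2)) (γ : Fin (m + 2) → GL (α ⊕ β) ℤ) :
    AnalyticOnNhd ℝ (Dfun e s γ) Set.univ := by
  intro y _
  have h1 : ∀ i j : Fin m, AnalyticAt ℝ (fun y : Fin (m + 2) → (α ⊕ β → α ⊕ β → ℝ) =>
      LgLin e (γ (s i)) (y (s i)) j) y := by
    intro i j
    let f : (Fin (m + 2) → (α ⊕ β → α ⊕ β → ℝ)) →ₗ[ℝ] ℝ :=
      (LinearMap.proj j).comp ((LgLin e (γ (s i))).comp (LinearMap.proj (s i)))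
    exact (LinearMap.toContinuousLinearMap f).analyticAt y
  have h2 : Dfun e s γ = fun y => ∑ σ : Equiv.Perm (Fin m), ((Equiv.Perm.sign σ : ℤ) : ℝ) *
      ∏ i, LgLin e (γ (s (σ i))) (y (s (σ i))) i := by
    funext y
    rw [Dfun, Matrix.det_apply']
    rfl
  rw [h2]
  apply Finset.analyticAt_fun_sum
  intro σ _
  apply AnalyticAt.mul analyticAt_const
  apply Finset.analyticAt_fun_prod
  intro i _
  exact h1 (σ i) i

lemma Dfun_ne_zero (s : Fin m ↪ Fin (m + 2)) (γ : Fin (m + 2) → GL (α ⊕ β) ℤ) :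
    ∃ y, Dfun e s γ y ≠ 0 := by
  choose Y hY using fun (g : GL (α ⊕ β) ℤ) (v : Fin m → ℝ) => Lg_surj e g v
  let y : Fin (m + 2) → (α ⊕ β → α ⊕ β → ℝ) := fun k =>
    Y (γ k) (fun a => if s a = k then 1 else 0)
  refine ⟨y, ?_⟩
  have h : Matrix.of (fun j => LgLin e (γ (s j)) (y (s j))) = (1 : Matrix (Fin m) (Fin m) ℝ) := by
    ext i j
    change Lg e (γ (s i)) (Y (γ (s i)) (fun a => if s a = s i then 1 else 0)) j = _
    rw [hY, Matrix.one_apply]
    by_cases hij : i = j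
    · simp [hij]
    · rw [if_neg hij, if_neg]
      intro h
      exact hij (s.injective h).symm
  rw [Dfun, h, Matrix.det_one]
  norm_num

theorem exists_generic (W : Set (Matrix (α ⊕ β) (α ⊕ β) ℝ)) (hW : IsOpen W) (hne : W.Nonempty) :
    ∃ y : Fin (m + 2) → Matrix (α ⊕ β) (α ⊕ β) ℝ, (∀ i, y i ∈ W) ∧ GenB e y := by
  have : Countable (GL (α ⊕ β) ℤ) := countable_GL _
  let E := Fin (m + 2) → (α ⊕ β → α ⊕ β → ℝ)
  let I := (Fin m ↪ Fin (m + 2)) × (Fin (m + 2) → GL (α ⊕ β) ℤ)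
  have hcont : ∀ p : I, Continuous (Dfun e p.1 p.2) := fun p =>
    (continuousOn_univ.1 (Dfun_analytic e p.1 p.2).continuousOn)
  have hopen : ∀ p : I, IsOpen {y : E | Dfun e p.1 p.2 y ≠ 0} := fun p =>
    isOpen_ne_fun (hcont p) continuous_const
  have hdense : ∀ p : I, Dense {y : E | Dfun e p.1 p.2 y ≠ 0} := by
    intro p
    have hint : interior {y : E | Dfun e p.1 p.2 y = 0} = ∅ := by
      by_contra hne
      obtain ⟨y, hy⟩ := Set.nonempty_iff_ne_empty.2 hne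
      have h1 : Dfun e p.1 p.2 =ᶠ[nhds y] 0 := by
        filter_upwards [mem_interior_iff_mem_nhds.1 hy] with z hz
        exact hz
      have h2 := (Dfun_analytic e p.1 p.2).eqOn_zero_of_preconnected_of_eventuallyEq_zero
        isPreconnected_univ (Set.mem_univ y) h1
      obtain ⟨z, hz⟩ := Dfun_ne_zero e p.1 p.2
      exact hz (h2 (Set.mem_univ z))
    exact interior_eq_empty_iff_dense_compl.1 hint
  have hD := dense_iInter_of_isOpen hopen hdense
  have hWo : IsOpen (Set.pi Set.univ (fun _ : Fin (m + 2) => (W : Set (α ⊕ β → α ⊕ β → ℝ)))) :=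
    isOpen_set_pi Set.finite_univ (fun _ _ => hW)
  have hWne : (Set.pi Set.univ (fun _ : Fin (m + 2) =>
      (W : Set (α ⊕ β → α ⊕ β → ℝ)))).Nonempty := by
    obtain ⟨w, hw⟩ := hne
    exact ⟨fun _ => w, fun _ _ => hw⟩
  obtain ⟨y, hyW, hyD⟩ := hD.inter_open_nonempty _ hWo hWne
  refine ⟨y, fun i => hyW i (Set.mem_univ i), ?_⟩
  intro γ s
  exact Set.mem_iInter.1 hyD (s, γ)

end Pool.Agent.H70
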