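import Mathlib
import Pool.Agent.H70.Finite

set_option autoImplicit false
set_option linter.unusedSectionVars false

/-!
Rigidity of orthogonal splittings near the cusp.
-/

namespace Pool.Agent.H70

open Matrix

section fJ
variable {n : Type} [Fintype n]

/-- The bilinear form `a ⬝ b + (∑ a) (∑ b)`. -/
def fJ (a b : n → ℝ) : ℝ := a ⬝ᵥ b + (∑ i, a i) * ∑ i, b i

lemma fJ_comm (a b : n → ℝ) : fJ a b = fJ b a := by
  rw [fJ, fJ, dotProduct_comm, mul_comm]

lemma fJ_add_left (a b c : n → ℝ) : fJ (a + b) c = fJ a c + fJ b c := by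
  simp only [fJ, add_dotProduct, Pi.add_apply, Finset.sum_add_distrib]
  ring

lemma fJ_sub_left (a b c : n → ℝ) : fJ (a - b) c = fJ a c - fJ b c := by
  simp only [fJ, sub_dotProduct, Pi.sub_apply, Finset.sum_sub_distrib]
  ring

lemma fJ_sub_right (a b c : n → ℝ) : fJ c (a - b) = fJ c a - fJ c b := by
  rw [fJ_comm, fJ_sub_left, fJ_comm a, fJ_comm b]

lemma fJ_add_right (a b c : n → ℝ) : fJ c (a + b) = fJ c a + fJ c b := by
  rw [fJ_comm, fJ_add_left, fJ_comm a, fJ_comm b]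

lemma fJ_zero_left (b : n → ℝ) : fJ 0 b = 0 := by simp [fJ]

lemma fJ_zero_right (b : n → ℝ) : fJ b 0 = 0 := by simp [fJ]

lemma fJ_self_nonneg (a : n → ℝ) : 0 ≤ fJ a a := by
  rw [fJ]
  have h1 : 0 ≤ a ⬝ᵥ a := Finset.sum_nonneg (fun i _ => mul_self_nonneg (a i))
  have h2 := mul_self_nonneg (∑ i, a i)
  linarith

lemma fJ_le (a b : n → ℝ) : fJ a b ≤ (fJ a a + fJ b b) / 2 := by
  have h := fJ_self_nonneg (a - b)
  rw [fJ_sub_left, fJ_sub_right, fJ_sub_right, fJ_comm b a] at h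
  linarith

lemma neg_fJ_le (a b : n → ℝ) : -((fJ a a + fJ b b) / 2) ≤ fJ a b := by
  have h := fJ_self_nonneg (a + b)
  rw [fJ_add_left, fJ_add_right, fJ_add_right, fJ_comm b a] at h
  linarith

lemma fJ_int {u : n → ℤ} (hu : u ≠ 0) : (2 : ℝ) ≤ fJ (fun i => (u i : ℝ)) (fun i => (u i : ℝ)) := by
  have h1 : fJ (fun i => (u i : ℝ)) (fun i => (u i : ℝ)) =
      ((∑ i, u i * u i + (∑ i, u i) * ∑ i, u i : ℤ) : ℝ) := by
    rw [fJ, dotProduct]
    push_cast
    rfl
  rw [h1]
  have h2 : 0 < ∑ i, u i * u i := by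
    obtain ⟨i, hi⟩ : ∃ i, u i ≠ 0 := by
      by_contra h
      push Not at h
      exact hu (funext h)
    exact Finset.sum_pos' (fun j _ => mul_self_nonneg _)
      ⟨i, Finset.mem_univ i, mul_self_pos.2 hi⟩
  have h3 : 0 ≤ (∑ i, u i) * ∑ i, u i := mul_self_nonneg _
  have h4 : Even (∑ i, u i * u i + (∑ i, u i) * ∑ i, u i) := by
    have h5 : ∑ i, u i * u i + (∑ i, u i) * ∑ i, u i =
        ∑ i, u i * (u i - 1) + (∑ i, u i) * (∑ i, u i + 1) := by
      have : ∑ i, u i * (u i - 1) = ∑ i, u i * u i - ∑ i, u i := by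
        rw [← Finset.sum_sub_distrib]
        exact Finset.sum_congr rfl (fun i _ => by ring)
      rw [this]
      ring
    rw [h5]
    refine Even.add ?_ (Int.even_mul_succ_self _)
    exact Finset.even_sum _ (fun i _ => Int.even_mul_pred_self _)
  have h5 : (2 : ℤ) ≤ ∑ i, u i * u i + (∑ i, u i) * ∑ i, u i := by
    obtain ⟨k, hk⟩ := h4
    omega
  exact_mod_cast h5

lemma fJ_bound {r : n → ℝ} (hr : ∀ i, |r i| ≤ 1) :
    fJ r r ≤ (Fintype.card n : ℝ) + (Fintype.card n : ℝ) ^ 2 := by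
  have h1 : r ⬝ᵥ r ≤ Fintype.card n := by
    rw [dotProduct]
    calc ∑ i, r i * r i ≤ ∑ _i : n, (1 : ℝ) := Finset.sum_le_sum (fun i _ => by
          rw [← abs_mul_abs_self (r i)]
          have := abs_nonneg (r i)
          nlinarith [hr i])
      _ = Fintype.card n := by simp
  have h2 : |∑ i, r i| ≤ Fintype.card n := by
    calc |∑ i, r i| ≤ ∑ i, |r i| := Finset.abs_sum_le_sum_abs _ _
      _ ≤ ∑ _i : n, (1 : ℝ) := Finset.sum_le_sum (fun i _ => hr i)
      _ = Fintype.card n := by simp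
  have h3 : (∑ i, r i) * ∑ i, r i ≤ (Fintype.card n : ℝ) ^ 2 := by
    rw [← abs_mul_abs_self (∑ i, r i), pow_two]
    exact mul_self_le_mul_self (abs_nonneg _) h2
  rw [fJ]
  linarith

lemma fJ_single [DecidableEq n] (i j : n) (h : i ≠ j) :
    fJ (Pi.single i (1 : ℝ)) (Pi.single j 1) = 1 := by
  simp [fJ, h, Pi.single_apply]

lemma fJ_single_self [DecidableEq n] (i : n) :
    fJ (Pi.single i (1 : ℝ)) (Pi.single i 1) = 2 := by
  simp [fJ, Pi.single_apply]
  norm_num

end fJ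

variable {α β : Type} [Fintype α] [Fintype β] [DecidableEq α] [DecidableEq β]

/-- The `α` part of a vector. -/
def pa (v : α ⊕ β → ℝ) : α → ℝ := fun i => v (Sum.inl i)

/-- The `β` part of a vector. -/
def pb (v : α ⊕ β → ℝ) : β → ℝ := fun i => v (Sum.inr i)

/-- The symmetric bilinear form attached to weights `w` and matrices `M`. -/
noncomputable def Bf {ι : Type} [Fintype ι] (R : ℝ) (w : ι → ℝ) (M : ι → Matrix α β ℝ)
    (v v' : α ⊕ β → ℝ) : ℝ :=
  R * fJ (pa v) (pa v') + ∑ i, w i * fJ (pa v ᵥ* M i + pb v) (pa v' ᵥ* M i + pb v')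

/-- Data for the rigidity argument. -/
structure RigidData {ι : Type} [Fintype ι] (R : ℝ) (w : ι → ℝ) (M : ι → Matrix α β ℝ)
    (P : Matrix (α ⊕ β) (α ⊕ β) ℤ) : Prop where
  w_nonneg : ∀ i, 0 ≤ w i
  w_sum : ∑ i, w i = 1
  M_le : ∀ i a b, |M i a b| ≤ 1
  R_large : 2 * ((Fintype.card β : ℝ) + (Fintype.card β : ℝ) ^ 2) < R
  R_one : 1 ≤ R
  idem : P * P = P
  adj : ∀ v v', Bf R w M (v ᵥ* P.map (Int.castRingHom ℝ)) v' =
    Bf R w M v (v' ᵥ* P.map (Int.castRingHom ℝ))

section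
variable {ι : Type} [Fintype ι] {R : ℝ} {w : ι → ℝ} {M : ι → Matrix α β ℝ}

lemma Bf_comm (v v' : α ⊕ β → ℝ) : Bf R w M v v' = Bf R w M v' v := by
  rw [Bf, Bf, fJ_comm (pa v)]
  congr 1
  exact Finset.sum_congr rfl (fun i _ => by rw [fJ_comm])

lemma Bf_add_left (u v v' : α ⊕ β → ℝ) :
    Bf R w M (u + v) v' = Bf R w M u v' + Bf R w M v v' := by
  have h1 : pa (u + v) = pa u + pa v := rfl
  have h2 : pb (u + v) = pb u + pb v := rfl
  rw [Bf, Bf, Bf, h1, h2, fJ_add_left]
  have : ∀ i, w i * fJ ((pa u + pa v) ᵥ* M i + (pb u + pb v)) (pa v' ᵥ* M i + pb v') =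
      w i * fJ (pa u ᵥ* M i + pb u) (pa v' ᵥ* M i + pb v') +
      w i * fJ (pa v ᵥ* M i + pb v) (pa v' ᵥ* M i + pb v') := by
    intro i
    rw [← mul_add, ← fJ_add_left, Matrix.add_vecMul]
    congr 2
    abel
  simp only [this, Finset.sum_add_distrib]
  ring

lemma Bf_zero_left (v : α ⊕ β → ℝ) : Bf R w M 0 v = 0 := by
  have h := Bf_add_left (R := R) (w := w) (M := M) 0 0 v
  rw [add_zero] at h
  linarith

lemma Bf_zero_right (v : α ⊕ β → ℝ) : Bf R w M v 0 = 0 := by
  rw [Bf_comm, Bf_zero_left]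

lemma Bf_add_right (u v v' : α ⊕ β → ℝ) :
    Bf R w M v' (u + v) = Bf R w M v' u + Bf R w M v' v := by
  rw [Bf_comm, Bf_add_left, Bf_comm u, Bf_comm v]

lemma Bf_self_ge (hw : ∀ i, 0 ≤ w i) (v : α ⊕ β → ℝ) : R * fJ (pa v) (pa v) ≤ Bf R w M v v := by
  rw [Bf]
  have : 0 ≤ ∑ i, w i * fJ (pa v ᵥ* M i + pb v) (pa v ᵥ* M i + pb v) :=
    Finset.sum_nonneg (fun i _ => mul_nonneg (hw i) (fJ_self_nonneg _))
  linarith

lemma Bf_of_pa_zero (hw1 : ∑ i, w i = 1) {v : α ⊕ β → ℝ} (hv : pa v = 0) :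
    Bf R w M v v = fJ (pb v) (pb v) := by
  rw [Bf, hv, fJ_zero_left]
  simp only [Matrix.zero_vecMul, zero_add, mul_zero]
  rw [← Finset.sum_mul, hw1, one_mul]

/-- A real vector is integral. -/
def IsInt {n : Type} (v : n → ℝ) : Prop := ∃ u : n → ℤ, v = fun i => (u i : ℝ)

lemma Bf_int_ge (hw : ∀ i, 0 ≤ w i) (hw1 : ∑ i, w i = 1) (hR : 1 ≤ R) {v : α ⊕ β → ℝ}
    (hv : IsInt v) (hne : v ≠ 0) : 2 ≤ Bf R w M v v := by
  obtain ⟨u, rfl⟩ := hv
  by_cases ha : (fun i : α => u (Sum.inl i)) = 0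
  · have h1 : pa (fun i => (u i : ℝ)) = 0 := by
      funext i
      have := congrFun ha i
      simp only [Pi.zero_apply] at this
      simp [pa, this]
    rw [Bf_of_pa_zero hw1 h1]
    apply fJ_int (u := fun i : β => u (Sum.inr i))
    intro h2
    apply hne
    funext i
    rcases i with i | i
    · exact congrFun h1 i
    · have := congrFun h2 i
      simp only [Pi.zero_apply] at this
      simp [this]
  · have h1 := Bf_self_ge (R := R) (M := M) hw (fun i => (u i : ℝ))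
    have h2 : 2 ≤ fJ (pa (fun i => (u i : ℝ))) (pa (fun i => (u i : ℝ))) :=
      fJ_int (u := fun i : α => u (Sum.inl i)) ha
    nlinarith

lemma Bf_int_ge' (hw : ∀ i, 0 ≤ w i) (hR : 0 ≤ R) {v : α ⊕ β → ℝ}
    (hv : IsInt v) (hne : pa v ≠ 0) : 2 * R ≤ Bf R w M v v := by
  obtain ⟨u, rfl⟩ := hv
  have h1 := Bf_self_ge (R := R) (M := M) hw (fun i => (u i : ℝ))
  have ha : (fun i : α => u (Sum.inl i)) ≠ 0 := by
    intro h
    apply hne
    funext i
    have := congrFun h i
    simp only [Pi.zero_apply] at this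
    simp [pa, this]
  have h2 : 2 ≤ fJ (pa (fun i => (u i : ℝ))) (pa (fun i => (u i : ℝ))) :=
    fJ_int (u := fun i : α => u (Sum.inl i)) ha
  nlinarith

end

section
variable {ι : Type} [Fintype ι] {R : ℝ} {w : ι → ℝ} {M : ι → Matrix α β ℝ}
  {P : Matrix (α ⊕ β) (α ⊕ β) ℤ}

lemma isInt_single {n : Type} [DecidableEq n] (i : n) : IsInt (Pi.single i (1 : ℝ) : n → ℝ) :=
  ⟨Pi.single i 1, by
    funext j
    by_cases h : j = i
    · subst h; simp
    · simp [h]⟩

lemma isInt_vecMul {n : Type} [Fintype n] {v : n → ℝ} (hv : IsInt v) (P : Matrix n n ℤ) :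
    IsInt (v ᵥ* P.map (Int.castRingHom ℝ)) := by
  obtain ⟨u, rfl⟩ := hv
  refine ⟨u ᵥ* P, ?_⟩
  funext j
  simp [Matrix.vecMul, dotProduct]

lemma isInt_sub {n : Type} {v w : n → ℝ} (hv : IsInt v) (hw : IsInt w) : IsInt (v - w) := by
  obtain ⟨u, rfl⟩ := hv
  obtain ⟨u', rfl⟩ := hw
  exact ⟨u - u', by funext i; simp⟩

lemma RigidData.pyth (h : RigidData R w M P) (v : α ⊕ β → ℝ) :
    Bf R w M v v = Bf R w M (v ᵥ* P.map (Int.castRingHom ℝ)) (v ᵥ* P.map (Int.castRingHom ℝ)) +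
      Bf R w M (v - v ᵥ* P.map (Int.castRingHom ℝ)) (v - v ᵥ* P.map (Int.castRingHom ℝ)) := by
  set Q := P.map (Int.castRingHom ℝ) with hQ
  have hQQ : Q * Q = Q := by rw [hQ, ← Matrix.map_mul, h.idem]
  have h2 : v = v ᵥ* Q + (v - v ᵥ* Q) := by abel
  have h3 : Bf R w M (v ᵥ* Q) (v - v ᵥ* Q) = 0 := by
    rw [h.adj, ← hQ, Matrix.sub_vecMul, Matrix.vecMul_vecMul, hQQ, sub_self, Bf_zero_right]
  conv_lhs => rw [h2]
  rw [Bf_add_left, Bf_add_right, Bf_add_right, Bf_comm (v - v ᵥ* Q) (v ᵥ* Q), h3]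
  ring

lemma RigidData.caseB (h : RigidData R w M P) :
    (∀ j : β, (Pi.single (Sum.inr j) (1 : ℝ) : α ⊕ β → ℝ) ᵥ* P.map (Int.castRingHom ℝ) = 0) ∨
    (∀ j : β, (Pi.single (Sum.inr j) (1 : ℝ) : α ⊕ β → ℝ) ᵥ* P.map (Int.castRingHom ℝ) =
      Pi.single (Sum.inr j) 1) := by
  set Q := P.map (Int.castRingHom ℝ) with hQ
  have hpa : ∀ j : β, pa (Pi.single (Sum.inr j) (1 : ℝ) : α ⊕ β → ℝ) = 0 := by
    intro j; funext i; simp [pa]
  have hpb : ∀ j : β, pb (Pi.single (Sum.inr j) (1 : ℝ) : α ⊕ β → ℝ) = Pi.single j 1 := by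
    intro j; funext i
    by_cases hij : i = j
    · subst hij; simp [pb]
    · simp [pb, hij]
  have key : ∀ j : β, (Pi.single (Sum.inr j) (1 : ℝ) : α ⊕ β → ℝ) ᵥ* Q = 0 ∨
      (Pi.single (Sum.inr j) (1 : ℝ) : α ⊕ β → ℝ) ᵥ* Q = Pi.single (Sum.inr j) 1 := by
    intro j
    by_contra hcon
    push Not at hcon
    have h1 := h.pyth (Pi.single (Sum.inr j) 1)
    rw [← hQ, Bf_of_pa_zero h.w_sum (hpa j), hpb, fJ_single_self] at h1
    have h2 := Bf_int_ge (R := R) (M := M) h.w_nonneg h.w_sum h.R_one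
      (isInt_vecMul (isInt_single (Sum.inr j)) P) hcon.1
    have h3 := Bf_int_ge (R := R) (M := M) h.w_nonneg h.w_sum h.R_one
      (isInt_sub (isInt_single (Sum.inr j)) (isInt_vecMul (isInt_single (Sum.inr j)) P))
      (sub_ne_zero.2 (Ne.symm hcon.2))
    rw [← hQ] at h2 h3
    linarith
  by_cases hex : ∃ j : β, (Pi.single (Sum.inr j) (1 : ℝ) : α ⊕ β → ℝ) ᵥ* Q = 0
  · left
    obtain ⟨j, hj⟩ := hex
    intro l
    rcases key l with hl | hl
    · exact hl
    · exfalso
      by_cases hjl : j = l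
      · subst hjl
        rw [hj] at hl
        have := congrFun hl (Sum.inr j)
        simp at this
      · have h1 := h.adj (Pi.single (Sum.inr l) 1) (Pi.single (Sum.inr j) 1)
        rw [← hQ, hj, hl, Bf_zero_right, Bf, hpa, hpa, hpb, hpb, fJ_zero_left] at h1
        simp only [Matrix.zero_vecMul, zero_add, mul_zero] at h1
        rw [fJ_single l j (Ne.symm hjl)] at h1
        simp [h.w_sum] at h1
  · right
    push Not at hex
    intro j
    exact (key j).resolve_left (hex j)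

lemma RigidData.caseA (h : RigidData R w M P)
    (h0 : ∀ j : β, (Pi.single (Sum.inr j) (1 : ℝ) : α ⊕ β → ℝ) ᵥ* P.map (Int.castRingHom ℝ) = 0) :
    P = 0 ∨ ∀ i i' : α, P (Sum.inl i) (Sum.inl i') = if i = i' then 1 else 0 := by
  set Q := P.map (Int.castRingHom ℝ) with hQ
  set K : ℝ := (Fintype.card β : ℝ) + (Fintype.card β : ℝ) ^ 2 with hK
  have hK0 : 0 ≤ K := by positivity
  have hRK : 2 * K < R := h.R_large
  have hR0 : 0 ≤ R := by linarith [h.R_one]
  have hQQ : Q * Q = Q := by rw [hQ, ← Matrix.map_mul, h.idem]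
  have hrow : ∀ (j : β) (k : α ⊕ β), Q (Sum.inr j) k = 0 := by
    intro j k
    have := congrFun (h0 j) k
    rw [Matrix.single_one_vecMul] at this
    exact this
  have hvan : ∀ v : α ⊕ β → ℝ, pa v = 0 → v ᵥ* Q = 0 := by
    intro v hv
    funext k
    rw [Matrix.vecMul, dotProduct, Fintype.sum_sum_type]
    have h1 : ∀ i : α, v (Sum.inl i) = 0 := fun i => congrFun hv i
    simp [h1, hrow]
  have hpa : ∀ i : α, pa (Pi.single (Sum.inl i) (1 : ℝ) : α ⊕ β → ℝ) = Pi.single i 1 := by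
    intro j; funext i
    by_cases hij : i = j
    · subst hij; simp [pa]
    · simp [pa, hij]
  have hpb : ∀ i : α, pb (Pi.single (Sum.inl i) (1 : ℝ) : α ⊕ β → ℝ) = 0 := by
    intro j; funext i; simp [pb]
  have hpavec : ∀ (i : α) (k : ι), (Pi.single i (1 : ℝ) : α → ℝ) ᵥ* M k + 0 = M k i := by
    intro i k
    rw [add_zero, Matrix.single_one_vecMul]
    rfl
  have hrK : ∀ (i : α) (k : ι), fJ (M k i) (M k i) ≤ K := fun i k => fJ_bound (h.M_le k i)
  have hnorm : ∀ i : α, Bf R w M (Pi.single (Sum.inl i) 1) (Pi.single (Sum.inl i) 1) ≤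
      2 * R + K := by
    intro i
    rw [Bf, hpa, hpb, fJ_single_self]
    simp only [hpavec]
    have : ∑ k, w k * fJ (M k i) (M k i) ≤ K := by
      calc ∑ k, w k * fJ (M k i) (M k i) ≤ ∑ k, w k * K :=
            Finset.sum_le_sum (fun k _ => mul_le_mul_of_nonneg_left (hrK i k) (h.w_nonneg k))
        _ = K := by rw [← Finset.sum_mul, h.w_sum, one_mul]
    linarith
  have key : ∀ i : α, (Pi.single (Sum.inl i) (1 : ℝ) : α ⊕ β → ℝ) ᵥ* Q = 0 ∨
      pa ((Pi.single (Sum.inl i) (1 : ℝ) : α ⊕ β → ℝ) ᵥ* Q) = Pi.single i 1 := by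
    intro i
    set v : α ⊕ β → ℝ := Pi.single (Sum.inl i) 1 with hv
    by_cases hu : pa (v ᵥ* Q) = 0
    · left
      have := hvan _ hu
      rwa [Matrix.vecMul_vecMul, hQQ] at this
    · by_cases hw : pa (v - v ᵥ* Q) = 0
      · right
        have h1 : pa (v - v ᵥ* Q) = pa v - pa (v ᵥ* Q) := rfl
        rw [h1, sub_eq_zero] at hw
        rw [← hw, hv, hpa]
      · exfalso
        have h1 := h.pyth v
        rw [← hQ] at h1
        have h2 := Bf_int_ge' (R := R) (M := M) h.w_nonneg hR0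
          (isInt_vecMul (isInt_single (Sum.inl i)) P) hu
        have h3 := Bf_int_ge' (R := R) (M := M) h.w_nonneg hR0
          (isInt_sub (isInt_single (Sum.inl i)) (isInt_vecMul (isInt_single (Sum.inl i)) P)) hw
        rw [← hQ, ← hv] at h2 h3
        have h4 := hnorm i
        rw [← hv] at h4
        linarith [h.R_one]
  have mixed : ∀ i i' : α, (Pi.single (Sum.inl i) (1 : ℝ) : α ⊕ β → ℝ) ᵥ* Q = 0 →
      pa ((Pi.single (Sum.inl i') (1 : ℝ) : α ⊕ β → ℝ) ᵥ* Q) = Pi.single i' 1 → False := by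
    intro i i' hi hi'
    by_cases hii : i = i'
    · subst hii
      rw [hi] at hi'
      have := congrFun hi' i
      simp [pa] at this
    · set v : α ⊕ β → ℝ := Pi.single (Sum.inl i) 1 with hv
      set v' : α ⊕ β → ℝ := Pi.single (Sum.inl i') 1 with hv'
      have h1 : Bf R w M (v' ᵥ* Q) v = 0 := by
        rw [h.adj, ← hQ, hi, Bf_zero_right]
      have h2 : Bf R w M v' v = Bf R w M (v' - v' ᵥ* Q) v := by
        have : v' = v' ᵥ* Q + (v' - v' ᵥ* Q) := by abel
        conv_lhs => rw [this]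
        rw [Bf_add_left, h1, zero_add]
      have hpaw : pa (v' - v' ᵥ* Q) = 0 := by
        have h3 : pa (v' - v' ᵥ* Q) = pa v' - pa (v' ᵥ* Q) := rfl
        rw [h3, hi', hv', hpa, sub_self]
      have h3 := h.pyth v'
      rw [← hQ] at h3
      have h4 := Bf_int_ge' (R := R) (M := M) h.w_nonneg hR0
          (isInt_vecMul (isInt_single (Sum.inl i')) P) (by
            rw [← hQ, ← hv', hi']
            intro h5
            have := congrFun h5 i'
            simp at this)
      rw [← hQ, ← hv'] at h4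
      have h5 := hnorm i'
      rw [← hv'] at h5
      have h6 : Bf R w M (v' - v' ᵥ* Q) (v' - v' ᵥ* Q) ≤ K := by linarith
      rw [Bf_of_pa_zero h.w_sum hpaw] at h6
      have h7 : Bf R w M (v' - v' ᵥ* Q) v ≤ K := by
        rw [Bf, hpaw, fJ_zero_left, mul_zero, zero_add, hv, hpa, hpb]
        simp only [hpavec, Matrix.zero_vecMul, zero_add]
        calc ∑ k, w k * fJ (pb (v' - v' ᵥ* Q)) (M k i) ≤ ∑ k, w k * K :=
              Finset.sum_le_sum (fun k _ => mul_le_mul_of_nonneg_left (by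
                have := fJ_le (pb (v' - v' ᵥ* Q)) (M k i)
                linarith [hrK i k]) (h.w_nonneg k))
          _ = K := by rw [← Finset.sum_mul, h.w_sum, one_mul]
      have h8 : R - K ≤ Bf R w M v' v := by
        rw [Bf, hv, hv', hpa, hpa, hpb, hpb, fJ_single i' i (Ne.symm hii)]
        simp only [hpavec]
        have : -K ≤ ∑ k, w k * fJ (M k i') (M k i) := by
          calc -K = ∑ k, w k * (-K) := by rw [← Finset.sum_mul, h.w_sum, one_mul]
            _ ≤ _ := Finset.sum_le_sum (fun k _ => mul_le_mul_of_nonneg_left (by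
                have := neg_fJ_le (M k i') (M k i)
                linarith [hrK i k, hrK i' k]) (h.w_nonneg k))
        linarith
      linarith
  have hentry : ∀ (i : α) (k : α ⊕ β), ((Pi.single (Sum.inl i) (1 : ℝ) : α ⊕ β → ℝ) ᵥ* Q) k =
      ((P (Sum.inl i) k : ℤ) : ℝ) := by
    intro i k
    rw [Matrix.single_one_vecMul]
    rfl
  by_cases hex : ∃ i : α, (Pi.single (Sum.inl i) (1 : ℝ) : α ⊕ β → ℝ) ᵥ* Q = 0
  · left
    obtain ⟨i, hi⟩ := hex
    have hall : ∀ i' : α, (Pi.single (Sum.inl i') (1 : ℝ) : α ⊕ β → ℝ) ᵥ* Q = 0 := fun i' =>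
      (key i').resolve_right (fun h' => mixed i i' hi h')
    ext a k
    rcases a with a | a
    · have h1 := hentry a k
      rw [hall a] at h1
      simp only [Pi.zero_apply] at h1
      have h2 : ((P (Sum.inl a) k : ℤ) : ℝ) = 0 := h1.symm
      simpa using h2
    · have h1 : ((P (Sum.inr a) k : ℤ) : ℝ) = 0 := hrow a k
      simpa using h1
  · right
    push Not at hex
    intro i i'
    have h1 := (key i).resolve_left (hex i)
    have h2 := congrFun h1 i'
    rw [pa, hentry] at h2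
    have h3 : ((P (Sum.inl i) (Sum.inl i') : ℤ) : ℝ) = if i = i' then 1 else 0 := by
      rw [h2, Pi.single_apply]
      simp only [eq_comm]
    split_ifs with h4
    · rw [if_pos h4] at h3
      exact_mod_cast h3
    · rw [if_neg h4] at h3
      exact_mod_cast h3

lemma RigidData.one_sub (h : RigidData R w M P) : RigidData R w M (1 - P) where
  w_nonneg := h.w_nonneg
  w_sum := h.w_sum
  M_le := h.M_le
  R_large := h.R_large
  R_one := h.R_one
  idem := by
    rw [Matrix.mul_sub, Matrix.sub_mul, Matrix.sub_mul, h.idem]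
    simp
  adj := by
    intro v v'
    have h1 : (1 - P).map (Int.castRingHom ℝ) = 1 - P.map (Int.castRingHom ℝ) := by
      ext i j
      simp [Matrix.one_apply, apply_ite]
    rw [h1, Matrix.vecMul_sub, Matrix.vecMul_sub, Matrix.vecMul_one, Matrix.vecMul_one]
    have h2 : ∀ a b c : α ⊕ β → ℝ, Bf R w M (a - b) c = Bf R w M a c - Bf R w M b c := by
      intro a b c
      have h3 := Bf_add_left (R := R) (w := w) (M := M) (a - b) b c
      rw [sub_add_cancel] at h3
      linarith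
    rw [h2, Bf_comm v (v' - _), h2, h.adj, Bf_comm v' v, Bf_comm _ v]

/-- The rigidity theorem. -/
theorem RigidData.main (h : RigidData R w M P) (hα : 0 < Fintype.card α) (hβ : 0 < Fintype.card β)
    (hne : Fintype.card α ≠ Fintype.card β) (htr : P.trace = Fintype.card α) :
    P = fromBlocks 1 P.toBlocks₁₂ 0 0 := by
  have htr2 : P.trace = ∑ i : α, P (Sum.inl i) (Sum.inl i) + ∑ j : β, P (Sum.inr j) (Sum.inr j) := by
    rw [Matrix.trace, Fintype.sum_sum_type]
    rfl
  have hrow : ∀ (Q : Matrix (α ⊕ β) (α ⊕ β) ℤ), (∀ j : β, (Pi.single (Sum.inr j) (1 : ℝ) : α ⊕ β → ℝ) ᵥ*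
      Q.map (Int.castRingHom ℝ) = 0) → ∀ (j : β) (k : α ⊕ β), Q (Sum.inr j) k = 0 := by
    intro Q hQ j k
    have := congrFun (hQ j) k
    rw [Matrix.single_one_vecMul] at this
    have h1 : ((Q (Sum.inr j) k : ℤ) : ℝ) = 0 := this
    exact_mod_cast h1
  rcases h.caseB with h0 | h1
  · rcases h.caseA h0 with h2 | h2
    · exfalso
      rw [h2] at htr
      simp at htr
      omega
    · ext a b
      rcases a with a | a
      · rcases b with b | b
        · rw [h2]
          simp [Matrix.one_apply]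
        · rfl
      · rw [hrow P h0]
        rcases b with b | b <;> simp
  · exfalso
    have h0' : ∀ j : β, (Pi.single (Sum.inr j) (1 : ℝ) : α ⊕ β → ℝ) ᵥ*
        (1 - P).map (Int.castRingHom ℝ) = 0 := by
      intro j
      have h3 : (1 - P).map (Int.castRingHom ℝ) = 1 - P.map (Int.castRingHom ℝ) := by
        ext i j
        simp [Matrix.one_apply, apply_ite]
      rw [h3, Matrix.vecMul_sub, h1, Matrix.vecMul_one, sub_self]
    have hrow' := hrow (1 - P) h0'
    have hb : ∑ j : β, P (Sum.inr j) (Sum.inr j) = Fintype.card β := by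
      have : ∀ j : β, P (Sum.inr j) (Sum.inr j) = 1 := by
        intro j
        have := hrow' j (Sum.inr j)
        simp only [Matrix.sub_apply, Matrix.one_apply_eq] at this
        omega
      simp [this]
    rcases h.one_sub.caseA h0' with h2 | h2
    · have h3 : P = 1 := by
        rw [sub_eq_zero] at h2
        exact h2.symm
      rw [h3] at htr
      simp at htr
      omega
    · have ha : ∑ i : α, P (Sum.inl i) (Sum.inl i) = 0 := by
        apply Finset.sum_eq_zero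
        intro i _
        have := h2 i i
        simp only [Matrix.sub_apply, Matrix.one_apply_eq, if_true] at this
        omega
      rw [htr2, ha, hb] at htr
      apply hne
      omega

end

end Pool.Agent.H70
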