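import Mathlib
import Pool.Agent.H70.Rigid
import Pool.Agent.H70.Generic

set_option autoImplicit false
set_option linter.unusedSectionVars false

/-!
The unipotent torus and the exact computation at the base point.
-/

namespace Pool.Agent.H70

open Matrix

variable {α β : Type} [Fintype α] [Fintype β] [DecidableEq α] [DecidableEq β]

/-- The unipotent matrix with upper right block `M`. -/
def uGL (M : Matrix α β ℤ) : GL (α ⊕ β) ℤ where
  val := fromBlocks 1 M 0 1
  inv := fromBlocks 1 (-M) 0 1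
  val_inv := by simp [fromBlocks_multiply]
  inv_val := by simp [fromBlocks_multiply]

lemma uGL_add (M N : Matrix α β ℤ) : uGL (M + N) = uGL M * uGL N := by
  apply Units.ext
  rw [Units.val_mul]
  simp [uGL, fromBlocks_multiply, add_comm]

lemma uGL_zero : uGL (0 : Matrix α β ℤ) = 1 := by
  apply Units.ext
  simp [uGL]

/-- The real unipotent matrix. -/
noncomputable def uR (M : Matrix α β ℝ) : Matrix (α ⊕ β) (α ⊕ β) ℝ := fromBlocks 1 M 0 1

lemma uR_add (M N : Matrix α β ℝ) : uR (M + N) = uR M * uR N := by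
  simp [uR, fromBlocks_multiply, add_comm]

lemma toR_uGL (M : Matrix α β ℤ) : toR (uGL M) = uR (M.map (Int.castRingHom ℝ)) := by
  ext i j
  rw [toR_apply]
  rcases i with i | i <;> rcases j with j | j <;> simp [uGL, uR, Matrix.one_apply, apply_ite]

lemma uGL_inv (M : Matrix α β ℤ) : (uGL M)⁻¹ = uGL (-M) := by
  rw [inv_eq_iff_mul_eq_one, ← uGL_add, add_neg_cancel, uGL_zero]

lemma idem_uGL (M : Matrix α β ℤ) : idem (uGL M) = fromBlocks 1 (-M) 0 0 := by
  rw [idem, uGL_inv]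
  simp [uGL, p0, fromBlocks_multiply]

/-- `1 + J` -/
noncomputable def cJ (n : Type) [DecidableEq n] : Matrix n n ℝ := 1 + Matrix.of (fun _ _ => 1)

lemma cJ_form {n : Type} [Fintype n] [DecidableEq n] (a b : n → ℝ) :
    a ⬝ᵥ (cJ n *ᵥ b) = fJ a b := by
  rw [cJ, Matrix.add_mulVec, Matrix.one_mulVec, dotProduct_add, fJ]
  congr 1
  simp only [Matrix.mulVec, dotProduct, Matrix.of_apply, one_mul]
  rw [Finset.sum_mul]

lemma cJ_symm (n : Type) [DecidableEq n] : (cJ n)ᵀ = cJ n := by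
  ext i j
  simp [cJ, Matrix.one_apply, eq_comm]

lemma mul_cJ_eq_zero {A : Matrix α β ℝ} (h : A * cJ β = 0) : A = 0 := by
  have h1 : ∀ a b, A a b + ∑ b', A a b' = 0 := by
    intro a b
    have := congrFun (congrFun h a) b
    rw [cJ, Matrix.mul_add, Matrix.mul_one, Matrix.add_apply, Matrix.mul_apply] at this
    simpa using this
  ext a b
  have h2 : ∑ b', (A a b' + ∑ b'', A a b'') = 0 := Finset.sum_eq_zero (fun b' _ => h1 a b')
  rw [Finset.sum_add_distrib] at h2
  simp only [Finset.sum_const, Finset.card_univ, nsmul_eq_mul] at h2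
  have h3 : (1 + (Fintype.card β : ℝ)) * ∑ b', A a b' = 0 := by linarith
  have h4 : ∑ b', A a b' = 0 := by
    rcases mul_eq_zero.1 h3 with h | h
    · have : (0 : ℝ) ≤ Fintype.card β := Nat.cast_nonneg _
      linarith
    · exact h
  have := h1 a b
  rw [h4, add_zero] at this
  exact this

/-- The diagonal base form. -/
noncomputable def Dl (α β : Type) [DecidableEq α] [DecidableEq β] (R : ℝ) :
    Matrix (α ⊕ β) (α ⊕ β) ℝ := fromBlocks (R • cJ α) 0 0 (cJ β)

lemma Dl_symm (R : ℝ) : (Dl α β R)ᵀ = Dl α β R := by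
  rw [Dl, fromBlocks_transpose, Matrix.transpose_smul, cJ_symm, cJ_symm]
  simp

lemma form_unip (R : ℝ) (M : Matrix α β ℝ) (v v' : α ⊕ β → ℝ) :
    v ⬝ᵥ (cong (uR M) (Dl α β R) *ᵥ v') = R * fJ (pa v) (pa v') +
      fJ (pa v ᵥ* M + pb v) (pa v' ᵥ* M + pb v') := by
  have h : ∀ v : α ⊕ β → ℝ, (uR M)ᵀ *ᵥ v = Sum.elim (pa v) (pa v ᵥ* M + pb v) := by
    intro v
    rw [Matrix.mulVec_transpose, uR, Matrix.vecMul_fromBlocks]
    simp only [Matrix.vecMul_one, Matrix.vecMul_zero, add_zero]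
    rfl
  rw [cong, form_cong, h, h, Dl, Matrix.fromBlocks_mulVec]
  simp only [Sum.elim_comp_inl, Sum.elim_comp_inr, Matrix.zero_mulVec, add_zero, zero_add]
  rw [sumElim_dotProduct_sumElim, Matrix.smul_mulVec, dotProduct_smul, cJ_form, cJ_form,
    smul_eq_mul]

lemma form_hull {ι : Type} [Fintype ι] (R : ℝ) (w : ι → ℝ) (hw1 : ∑ i, w i = 1)
    (M : ι → Matrix α β ℝ) (v v' : α ⊕ β → ℝ) :
    v ⬝ᵥ ((∑ i, w i • cong (uR (M i)) (Dl α β R)) *ᵥ v') = Bf R w M v v' := by
  rw [Matrix.sum_mulVec, dotProduct_sum, Bf]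
  have : ∀ i, v ⬝ᵥ ((w i • cong (uR (M i)) (Dl α β R)) *ᵥ v') = w i * (R * fJ (pa v) (pa v')) +
      w i * fJ (pa v ᵥ* M i + pb v) (pa v' ᵥ* M i + pb v') := by
    intro i
    rw [Matrix.smul_mulVec, dotProduct_smul, form_unip, smul_eq_mul, mul_add]
  simp only [this, Finset.sum_add_distrib]
  rw [← Finset.sum_mul, hw1, one_mul]

lemma hull_symm {ι : Type} [Fintype ι] (R : ℝ) (w : ι → ℝ) (M : ι → Matrix α β ℝ) :
    (∑ i, w i • cong (uR (M i)) (Dl α β R))ᵀ = ∑ i, w i • cong (uR (M i)) (Dl α β R) := by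
  rw [Matrix.transpose_sum]
  refine Finset.sum_congr rfl (fun i _ => ?_)
  rw [Matrix.transpose_smul, cong]
  simp only [Matrix.transpose_mul, Matrix.transpose_transpose, Matrix.mul_assoc, Dl_symm]

lemma trace_idem (g : GL (α ⊕ β) ℤ) : (idem g).trace = Fintype.card α := by
  rw [idem, Matrix.trace_mul_comm, ← Matrix.mul_assoc, Units.inv_mul, Matrix.one_mul, p0,
    Matrix.trace, Fintype.sum_sum_type]
  simp

lemma Splits_congr {g k : GL (α ⊕ β) ℤ} (h : g⁻¹ * k ∈ Levi α β)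
    {X : Matrix (α ⊕ β) (α ⊕ β) ℝ} (hs : Splits k X) : Splits g X := by
  have e := (Fintype.equivFin (α × β)).symm
  rw [Splits, ← blkv_eq_zero e] at hs ⊢
  have : toR g⁻¹ = toR (g⁻¹ * k) * toR k⁻¹ := by
    rw [← map_mul, mul_assoc, mul_inv_cancel, mul_one]
  rw [this, cong_mul, blkv_cong_Levi e h, hs, Matrix.mulVec_zero]

lemma blk_cong_uR (R : ℝ) (N : Matrix α β ℝ) : (cong (uR N) (Dl α β R)).toBlocks₁₂ = N * cJ β := by
  rw [cong, uR, Dl, fromBlocks_transpose, fromBlocks_multiply, fromBlocks_multiply]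
  simp

/-- Splittings of the forms in the hull. -/
theorem cusp {ι : Type} [Fintype ι] {R : ℝ} {w : ι → ℝ} {M : ι → Matrix α β ℝ}
    (hw : ∀ i, 0 ≤ w i) (hw1 : ∑ i, w i = 1) (hM : ∀ i a b, |M i a b| ≤ 1)
    (hR : 2 * ((Fintype.card β : ℝ) + (Fintype.card β : ℝ) ^ 2) < R) (hR1 : 1 ≤ R)
    (hα : 0 < Fintype.card α) (hβ : 0 < Fintype.card β)
    (hne : Fintype.card α ≠ Fintype.card β) {g : GL (α ⊕ β) ℤ}
    (hs : Splits g (∑ i, w i • cong (uR (M i)) (Dl α β R))) :
    ∃ N : Matrix α β ℤ, (g : GL (α ⊕ β) ℤ ⧸ Levi α β) = (uGL N : GL (α ⊕ β) ℤ) ∧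
      N.map (Int.castRingHom ℝ) = ∑ i, w i • M i := by
  have hadj := idemR_adj (hull_symm R w M) hs
  have hRD : RigidData R w M (idem g) :=
    { w_nonneg := hw
      w_sum := hw1
      M_le := hM
      R_large := hR
      R_one := hR1
      idem := idem_idem g
      adj := by
        intro v v'
        rw [← form_hull R w hw1, ← form_hull R w hw1]
        exact form_adj hadj v v' }
  have h1 := hRD.main hα hβ hne (trace_idem g)
  set N : Matrix α β ℤ := - (idem g).toBlocks₁₂ with hN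
  have h2 : idem (uGL N) = idem g := by
    rw [idem_uGL, h1, hN, neg_neg]
  have h3 : (uGL N)⁻¹ * g ∈ Levi α β := (idem_eq_iff _ _).1 h2
  refine ⟨N, (QuotientGroup.eq.2 h3).symm, ?_⟩
  have h4 := Splits_congr h3 hs
  rw [Splits, uGL_inv, toR_uGL, cong_sum] at h4
  have h5 : ∀ i, cong (uR ((-N).map (Int.castRingHom ℝ))) (w i • cong (uR (M i)) (Dl α β R)) =
      w i • cong (uR (M i - N.map (Int.castRingHom ℝ))) (Dl α β R) := by
    intro i
    rw [cong_smul, ← cong_mul, ← uR_add]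
    congr 3
    ext a b
    simp
    ring
  simp only [h5] at h4
  have h6 : (∑ i, w i • cong (uR (M i - N.map (Int.castRingHom ℝ))) (Dl α β R)).toBlocks₁₂ =
      (∑ i, w i • M i - N.map (Int.castRingHom ℝ)) * cJ β := by
    have h7 : (∑ i, w i • cong (uR (M i - N.map (Int.castRingHom ℝ))) (Dl α β R)).toBlocks₁₂ =
        ∑ i, w i • (cong (uR (M i - N.map (Int.castRingHom ℝ))) (Dl α β R)).toBlocks₁₂ := by
      ext a b
      simp [Matrix.toBlocks₁₂, Matrix.sum_apply]
    rw [h7]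
    simp only [blk_cong_uR, Matrix.sub_mul, smul_sub, Finset.sum_sub_distrib, Matrix.sum_mul,
      Matrix.smul_mul]
    rw [← Finset.sum_smul, hw1, one_smul]
  rw [h6] at h4
  exact (sub_eq_zero.1 (mul_cJ_eq_zero h4)).symm

end Pool.Agent.H70
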