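import Mathlib
import Pool.Agent.H70.Unip

set_option autoImplicit false
set_option linter.unusedSectionVars false

/-!
The base point and the local computation.
-/

namespace Pool.Agent.H70

open Matrix

variable {α β : Type} [Fintype α] [Fintype β] [DecidableEq α] [DecidableEq β]
variable {m : ℕ} (e : Fin m ≃ α × β)

/-- The generators of the unipotent torus. -/
def tGL (k : Fin m) : GL (α ⊕ β) ℤ := uGL (Matrix.single (e k).1 (e k).2 1)

/-- The matrices occurring in the partial products. -/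
def chainM (σ : Equiv.Perm (Fin m)) (i : Fin (m + 1)) : Matrix α β ℤ :=
  Matrix.of fun a b => if ((σ.symm (e.symm (a, b)) : Fin m) : ℕ) < (i : ℕ) then 1 else 0

lemma partialProd_t (σ : Equiv.Perm (Fin m)) (i : Fin (m + 1)) :
    Fin.partialProd (tGL e ∘ σ) i = uGL (chainM e σ i) := by
  induction i using Fin.induction with
  | zero =>
    rw [Fin.partialProd_zero]
    have : chainM e σ 0 = 0 := by
      ext a b
      simp [chainM]
    rw [this, uGL_zero]
  | succ i ih =>
    rw [Fin.partialProd_succ, ih, Function.comp_apply, tGL, ← uGL_add]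
    congr 1
    ext a b
    simp only [chainM, Matrix.add_apply, Matrix.of_apply, Fin.val_castSucc, Fin.val_succ,
      Matrix.single_apply]
    by_cases h : e.symm (a, b) = σ i
    · have h1 : σ.symm (e.symm (a, b)) = i := by rw [h, Equiv.symm_apply_apply]
      have h2 : e (σ i) = (a, b) := by rw [← h, Equiv.apply_symm_apply]
      rw [h1, h2]
      simp
    · have h1 : σ.symm (e.symm (a, b)) ≠ i := by
        intro h1
        apply h
        rw [← h1, Equiv.apply_symm_apply]
      have h2 : ¬ ((e (σ i)).1 = a ∧ (e (σ i)).2 = b) := by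
        rintro ⟨h3, h4⟩
        apply h
        rw [Equiv.symm_apply_eq]
        exact (Prod.ext h3 h4).symm
      rw [if_neg h2, add_zero]
      have h3 : ((σ.symm (e.symm (a, b)) : Fin m) : ℕ) ≠ (i : ℕ) := fun h3 => h1 (Fin.ext h3)
      congr 1
      apply propext
      omega

/-- The base point of the torus. -/
noncomputable def Bhat : Matrix α β ℝ :=
  Matrix.of fun a b => ((m : ℝ) - ((e.symm (a, b) : Fin m) : ℕ)) / (m + 1)

lemma Bhat_pos (a : α) (b : β) : 0 < Bhat e a b := by
  have h : (((e.symm (a, b) : Fin m) : ℕ) : ℝ) < m := by exact_mod_cast (e.symm (a, b)).2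
  simp only [Bhat, Matrix.of_apply]
  apply div_pos
  · linarith
  · positivity

lemma Bhat_lt (a : α) (b : β) : Bhat e a b < 1 := by
  have h : (0 : ℝ) ≤ (((e.symm (a, b) : Fin m) : ℕ) : ℝ) := Nat.cast_nonneg _
  simp only [Bhat, Matrix.of_apply]
  rw [div_lt_one (by positivity)]
  linarith

/-- The matrices of the vertices of the simplices, relative to the base point. -/
noncomputable def vM (σ : Equiv.Perm (Fin m)) (i : Fin (m + 1)) : Matrix α β ℝ :=
  (chainM e σ i).map (Int.castRingHom ℝ) - Bhat e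

lemma vM_abs (σ : Equiv.Perm (Fin m)) (i : Fin (m + 1)) (a : α) (b : β) : |vM e σ i a b| ≤ 1 := by
  have h1 := Bhat_pos e a b
  have h2 := Bhat_lt e a b
  have h3 : vM e σ i a b = (if ((σ.symm (e.symm (a, b)) : Fin m) : ℕ) < (i : ℕ) then 1 else 0) -
      Bhat e a b := by
    simp [vM, chainM]
  rw [h3, abs_le]
  split_ifs <;> constructor <;> linarith

variable (α β) in
/-- The constant `R`. -/
noncomputable def RR : ℝ := 2 * ((Fintype.card β : ℝ) + (Fintype.card β : ℝ) ^ 2) + 1

/-- The base point. -/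
noncomputable def ybase : Matrix (α ⊕ β) (α ⊕ β) ℝ :=
  (1 / 2 : ℝ) • cong (uR (-(Bhat e))) (Dl α β (RR β))

lemma ybase_sym : ybase e + (ybase e)ᵀ = cong (uR (-(Bhat e))) (Dl α β (RR β)) := by
  have h : (cong (uR (-(Bhat e))) (Dl α β (RR β)))ᵀ = cong (uR (-(Bhat e))) (Dl α β (RR β)) := by
    rw [cong]
    simp only [Matrix.transpose_mul, Matrix.transpose_transpose, Matrix.mul_assoc, Dl_symm]
  rw [ybase, Matrix.transpose_smul, h, ← add_smul]
  norm_num

lemma cong_vertex (σ : Equiv.Perm (Fin m)) (i : Fin (m + 1)) :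
    cong (toR (Fin.partialProd (tGL e ∘ σ) i)) (ybase e + (ybase e)ᵀ) =
      cong (uR (vM e σ i)) (Dl α β (RR β)) := by
  rw [ybase_sym, partialProd_t, toR_uGL, ← cong_mul, ← uR_add]
  congr 2

/-- The exact statement at the base point. -/
theorem exact_hull (hα : 0 < Fintype.card α) (hβ : 0 < Fintype.card β)
    (hne : Fintype.card α ≠ Fintype.card β) (σ : Equiv.Perm (Fin m)) (g : GL (α ⊕ β) ℤ)
    (w : Fin (m + 1) → ℝ) (hw : ∀ i, 0 ≤ w i) (hw1 : ∑ i, w i = 1)
    (h0 : ∑ i, w i • Lg e (g⁻¹ * Fin.partialProd (tGL e ∘ σ) i) (ybase e) = 0) :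
    σ = 1 ∧ (g : GL (α ⊕ β) ℤ ⧸ Levi α β) = (1 : GL (α ⊕ β) ℤ) := by
  have h1 := (hull_split e (Fin.partialProd (tGL e ∘ σ)) (fun _ => ybase e) w g).1 h0
  simp only [cong_vertex] at h1
  obtain ⟨N, hN, hN'⟩ := cusp hw hw1 (vM_abs e σ) (by rw [RR]; linarith)
    (by rw [RR]; have : (0 : ℝ) ≤ (Fintype.card β : ℝ) + (Fintype.card β : ℝ) ^ 2 := by positivity
        linarith) hα hβ hne h1
  -- the weights
  have hW : ∀ k : Fin m, ((N (e k).1 (e k).2 : ℤ) : ℝ) + ((m : ℝ) - (k : ℕ)) / (m + 1) =
      ∑ i : Fin (m + 1), if ((σ.symm k : Fin m) : ℕ) < (i : ℕ) then w i else 0 := by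
    intro k
    have h2 := congrFun (congrFun hN' (e k).1) (e k).2
    rw [Matrix.map_apply, Matrix.sum_apply] at h2
    have h3 : ∀ i : Fin (m + 1), (w i • vM e σ i) (e k).1 (e k).2 =
        (if ((σ.symm k : Fin m) : ℕ) < (i : ℕ) then w i else 0) -
        w i * (((m : ℝ) - (k : ℕ)) / (m + 1)) := by
      intro i
      simp only [vM, chainM, Bhat, Matrix.smul_apply, Matrix.sub_apply, Matrix.map_apply,
        Matrix.of_apply, smul_eq_mul, Equiv.symm_apply_apply, Prod.mk.eta]
      split_ifs <;> simp [mul_sub]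
    simp only [h3, Finset.sum_sub_distrib] at h2
    rw [← Finset.sum_mul, hw1, one_mul] at h2
    have h4 : (Int.castRingHom ℝ) (N (e k).1 (e k).2) = ((N (e k).1 (e k).2 : ℤ) : ℝ) := rfl
    rw [h4] at h2
    linarith
  have hWle : ∀ k : Fin m, (∑ i : Fin (m + 1), if ((σ.symm k : Fin m) : ℕ) < (i : ℕ) then w i
      else 0) ≤ 1 := by
    intro k
    rw [← hw1]
    exact Finset.sum_le_sum (fun i _ => by split_ifs <;> simp [hw i])
  have hWge : ∀ k : Fin m, 0 ≤ (∑ i : Fin (m + 1), if ((σ.symm k : Fin m) : ℕ) < (i : ℕ) then w i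
      else 0) := by
    intro k
    exact Finset.sum_nonneg (fun i _ => by split_ifs <;> simp [hw i])
  have hN0 : ∀ k : Fin m, N (e k).1 (e k).2 = 0 := by
    intro k
    have hk : ((k : ℕ) : ℝ) < m := by exact_mod_cast k.2
    have hk0 : (0 : ℝ) ≤ ((k : ℕ) : ℝ) := Nat.cast_nonneg _
    have h2 : 0 < ((m : ℝ) - (k : ℕ)) / (m + 1) := div_pos (by linarith) (by positivity)
    have h3 : ((m : ℝ) - (k : ℕ)) / (m + 1) < 1 := by
      rw [div_lt_one (by positivity)]; linarith
    have h4 := hW k
    have h5 := hWle k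
    have h6 := hWge k
    have h7 : ((N (e k).1 (e k).2 : ℤ) : ℝ) < 1 := by linarith
    have h8 : (-1 : ℝ) < ((N (e k).1 (e k).2 : ℤ) : ℝ) := by linarith
    have h9 : N (e k).1 (e k).2 < 1 := by exact_mod_cast h7
    have h10 : -1 < N (e k).1 (e k).2 := by exact_mod_cast h8
    omega
  have hNz : N = 0 := by
    ext a b
    have := hN0 (e.symm (a, b))
    rw [Equiv.apply_symm_apply] at this
    exact this
  constructor
  · have hmono : StrictMono σ.symm := by
      intro k k' hkk
      by_contra hcon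
      push Not at hcon
      have h2 := hW k
      have h3 := hW k'
      rw [hN0] at h2 h3
      have h4 : (∑ i : Fin (m + 1), if ((σ.symm k : Fin m) : ℕ) < (i : ℕ) then w i else 0) ≤
          ∑ i : Fin (m + 1), if ((σ.symm k' : Fin m) : ℕ) < (i : ℕ) then w i else 0 := by
        refine Finset.sum_le_sum (fun i _ => ?_)
        have hcon' : ((σ.symm k' : Fin m) : ℕ) ≤ ((σ.symm k : Fin m) : ℕ) := hcon
        split_ifs with h5 h6
        · exact le_rfl
        · omega
        · exact hw i
        · exact le_rfl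
      rw [← h2, ← h3] at h4
      simp only [Int.cast_zero, zero_add] at h4
      rw [div_le_div_iff_of_pos_right (by positivity)] at h4
      have h5 : ((k : ℕ) : ℝ) < ((k' : ℕ) : ℝ) := by exact_mod_cast hkk
      linarith
    have h2 := hmono.eq_id
    ext k
    have h3 : σ.symm (σ k) = σ k := congrFun h2 (σ k)
    rw [Equiv.symm_apply_apply] at h3
    rw [Equiv.Perm.one_apply, ← h3]
  · rw [hN, hNz, uGL_zero]

end Pool.Agent.H70
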