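import Mathlib
import Pool.Agent.H70.Base

set_option autoImplicit false
set_option linter.unusedSectionVars false

/-!
The local computation near the base point.
-/

namespace Pool.Agent.H70

open Matrix Filter Topology

section general
variable {m : ℕ}

lemma continuous_coef (j : Fin (m + 1)) :
    Continuous (fun v : Fin (m + 1) → Fin m → ℝ => coef v j) := by
  unfold coef
  apply Continuous.mul continuous_const
  apply Continuous.matrix_det
  apply continuous_matrix
  intro i k
  exact (continuous_apply k).comp (continuous_apply _)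

lemma f0_eventually_zero (v0 : Fin (m + 1) → Fin m → ℝ)
    (h : ∀ w : Fin (m + 1) → ℝ, (∀ i, 0 ≤ w i) → ∑ i, w i = 1 → ∑ i, w i • v0 i ≠ 0) :
    ∀ᶠ v in 𝓝 v0, f0 v = 0 := by
  let L : (Fin (m + 1) → ℝ) →ₗ[ℝ] (Fin m → ℝ) :=
    { toFun := fun w => ∑ i, w i • v0 i
      map_add' := by
        intro x y
        simp only [Pi.add_apply, add_smul, Finset.sum_add_distrib]
      map_smul' := by
        intro c x
        simp only [Pi.smul_apply, smul_eq_mul, mul_smul, RingHom.id_apply, Finset.smul_sum] }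
  have hLc : Continuous L := LinearMap.continuous_of_finiteDimensional L
  have hconv : Convex ℝ (L '' stdSimplex ℝ (Fin (m + 1))) :=
    (convex_stdSimplex ℝ (Fin (m + 1))).linear_image L
  have hclosed : IsClosed (L '' stdSimplex ℝ (Fin (m + 1))) :=
    ((isCompact_stdSimplex ℝ (Fin (m + 1))).image hLc).isClosed
  have h0 : (0 : Fin m → ℝ) ∉ L '' stdSimplex ℝ (Fin (m + 1)) := by
    rintro ⟨w, hw, hw0⟩
    exact h w hw.1 hw.2 hw0
  obtain ⟨ℓ, u, hu, hℓ⟩ := geometric_hahn_banach_point_closed hconv hclosed h0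
  rw [map_zero] at hu
  have hpos : ∀ i, 0 < ℓ (v0 i) := by
    intro i
    have hmem : v0 i ∈ L '' stdSimplex ℝ (Fin (m + 1)) := by
      refine ⟨Pi.single i 1, single_mem_stdSimplex ℝ i, ?_⟩
      change ∑ j, (Pi.single i (1 : ℝ) : Fin (m + 1) → ℝ) j • v0 j = v0 i
      rw [Finset.sum_eq_single i]
      · simp
      · intro j _ hj
        simp [hj]
      · simp
    exact hu.trans (hℓ _ hmem)
  have hev : ∀ i, ∀ᶠ v in 𝓝 v0, 0 < ℓ (v i) := by
    intro i
    have hc : Continuous (fun v : Fin (m + 1) → Fin m → ℝ => ℓ (v i)) :=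
      ℓ.continuous.comp (continuous_apply i)
    exact hc.continuousAt.eventually (lt_mem_nhds (hpos i))
  filter_upwards [eventually_all.2 hev] with v hv
  by_contra hne
  obtain ⟨w, hw, _, hw0⟩ := f0_ne_zero hne
  have h1 := congrArg ℓ hw0
  rw [map_sum, map_zero] at h1
  have h2 : 0 < ∑ i, ℓ (w i • v i) := by
    apply Finset.sum_pos
    · intro i _
      rw [map_smul, smul_eq_mul]
      exact mul_pos (hw i) (hv i)
    · exact Finset.univ_nonempty
  linarith

lemma f0_eventually_sign (v0 : Fin (m + 1) → Fin m → ℝ) (hsum : ∑ i, v0 i = 0)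
    (hdet : (Matrix.of (fun i : Fin m => v0 i.succ)).det ≠ 0) :
    ∃ s : ℤ, s ≠ 0 ∧ ∀ᶠ v in 𝓝 v0, f0 v = s := by
  have hc0 : coef v0 0 = (Matrix.of (fun i : Fin m => v0 i.succ)).det := by
    simp [coef]
  have hall : ∀ j, coef v0 j = coef v0 0 := by
    have h1 : ∑ j, (coef v0 j - coef v0 0) • v0 j = 0 := by
      simp only [sub_smul, Finset.sum_sub_distrib, cramer]
      rw [← Finset.smul_sum, hsum, smul_zero, sub_zero]
    rw [Fin.sum_univ_succ, sub_self, zero_smul, zero_add] at h1
    have h2 : (fun j : Fin m => coef v0 j.succ - coef v0 0) = 0 := by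
      apply Matrix.eq_zero_of_vecMul_eq_zero hdet
      rw [← h1]
      funext a
      simp [Matrix.vecMul, dotProduct]
    intro j
    refine Fin.cases rfl (fun j => ?_) j
    have := congrFun h2 j
    simp only [Pi.zero_apply] at this
    linarith
  rcases lt_or_gt_of_ne (hc0 ▸ hdet : coef v0 0 ≠ 0) with h | h
  · refine ⟨-1, by norm_num, ?_⟩
    have hev : ∀ j, ∀ᶠ v in 𝓝 v0, coef v j < 0 := by
      intro j
      exact (continuous_coef j).continuousAt.eventually (gt_mem_nhds (show coef v0 j < 0 by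
        rw [hall j]; exact h))
    filter_upwards [eventually_all.2 hev] with v hv
    rw [f0, if_neg, if_pos hv]
    intro h'
    exact absurd (h' 0) (not_lt.2 (hv 0).le)
  · refine ⟨1, by norm_num, ?_⟩
    have hev : ∀ j, ∀ᶠ v in 𝓝 v0, 0 < coef v j := by
      intro j
      exact (continuous_coef j).continuousAt.eventually (lt_mem_nhds (show 0 < coef v0 j by
        rw [hall j]; exact h))
    filter_upwards [eventually_all.2 hev] with v hv
    rw [f0, if_pos hv]

lemma Bd_eventually {n : Type} [Fintype n] {X0 : Matrix n n ℝ} {c C : ℝ} (hc : 0 < c)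
    (h : Bd c C X0) : ∀ᶠ X in 𝓝 X0, Bd (c / 2) (C + c / 2) X := by
  have hcont : Continuous (fun X : Matrix n n ℝ => ∑ i, ∑ j, |X i j - X0 i j|) := by
    apply continuous_finsetSum
    intro i _
    apply continuous_finsetSum
    intro j _
    exact ((continuous_id.matrix_elem i j).sub continuous_const).abs
  have h0 : (fun X : Matrix n n ℝ => ∑ i, ∑ j, |X i j - X0 i j|) X0 < c / 2 := by
    simp
    linarith
  filter_upwards [hcont.continuousAt.eventually (gt_mem_nhds h0)] with X hX
  intro v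
  have h1 := h v
  have h2 : |v ⬝ᵥ (X *ᵥ v) - v ⬝ᵥ (X0 *ᵥ v)| ≤ (∑ i, ∑ j, |X i j - X0 i j|) * (v ⬝ᵥ v) := by
    have h3 : v ⬝ᵥ (X *ᵥ v) - v ⬝ᵥ (X0 *ᵥ v) = ∑ i, ∑ j, v i * ((X i j - X0 i j) * v j) := by
      simp only [dotProduct, Matrix.mulVec, Finset.mul_sum, ← Finset.sum_sub_distrib]
      refine Finset.sum_congr rfl (fun i _ => Finset.sum_congr rfl (fun j _ => ?_))
      ring
    rw [h3, Finset.sum_mul]
    refine (Finset.abs_sum_le_sum_abs _ _).trans (Finset.sum_le_sum (fun i _ => ?_))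
    rw [Finset.sum_mul]
    refine (Finset.abs_sum_le_sum_abs _ _).trans (Finset.sum_le_sum (fun j _ => ?_))
    rw [abs_mul, abs_mul]
    have h4 : |v i| * |v j| ≤ v ⬝ᵥ v := by
      have h5 : v i * v i ≤ v ⬝ᵥ v :=
        Finset.single_le_sum (f := fun k => v k * v k) (fun k _ => mul_self_nonneg _)
          (Finset.mem_univ i)
      have h6 : v j * v j ≤ v ⬝ᵥ v :=
        Finset.single_le_sum (f := fun k => v k * v k) (fun k _ => mul_self_nonneg _)
          (Finset.mem_univ j)
      have h7 := sq_nonneg (|v i| - |v j|)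
      have h8 := abs_mul_abs_self (v i)
      have h9 := abs_mul_abs_self (v j)
      nlinarith
    calc |v i| * (|X i j - X0 i j| * |v j|) = |X i j - X0 i j| * (|v i| * |v j|) := by ring
      _ ≤ |X i j - X0 i j| * (v ⬝ᵥ v) := mul_le_mul_of_nonneg_left h4 (abs_nonneg _)
  have h3 : (∑ i, ∑ j, |X i j - X0 i j|) * (v ⬝ᵥ v) ≤ c / 2 * (v ⬝ᵥ v) :=
    mul_le_mul_of_nonneg_right (le_of_lt hX)
      (Finset.sum_nonneg (fun i _ => mul_self_nonneg (v i)))
  rw [abs_le] at h2
  constructor
  · linarith [h2.1]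
  · linarith [h2.2]

end general

section special

variable {α β : Type} [Fintype α] [Fintype β] [DecidableEq α] [DecidableEq β]
variable {m : ℕ} (e : Fin m ≃ α × β)

lemma continuous_Lg (g : GL (α ⊕ β) ℤ) : Continuous (Lg e g) :=
  LinearMap.continuous_of_finiteDimensional (LgLin e g)

lemma continuous_cong_sym (G : Matrix (α ⊕ β) (α ⊕ β) ℝ) :
    Continuous (fun z : Matrix (α ⊕ β) (α ⊕ β) ℝ => cong G (z + zᵀ)) := by
  unfold cong
  exact (continuous_const.matrix_mul (continuous_id.add continuous_id.matrix_transpose)).matrix_mul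
    continuous_const

lemma Dl_pos {R : ℝ} (hR : 0 < R) : ∃ c C : ℝ, 0 < c ∧ Bd c C (Dl α β R) := by
  obtain ⟨K, hK, hK'⟩ := mulVec_sq_le (Dl α β R)
  refine ⟨min R 1, (1 + K) / 2, lt_min hR one_pos, fun v => ?_⟩
  have hform : v ⬝ᵥ (Dl α β R *ᵥ v) = R * fJ (pa v) (pa v) + fJ (pb v) (pb v) := by
    have h := form_unip R (0 : Matrix α β ℝ) v v
    have h1 : cong (uR (0 : Matrix α β ℝ)) (Dl α β R) = Dl α β R := by
      simp [cong, uR]
    rw [h1] at h
    rw [h]
    simp
  have hdot : v ⬝ᵥ v = pa v ⬝ᵥ pa v + pb v ⬝ᵥ pb v := by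
    rw [dotProduct, Fintype.sum_sum_type]
    rfl
  constructor
  · rw [hform, hdot, fJ, fJ]
    have h1 := dot_self_nonneg (pa v)
    have h2 := dot_self_nonneg (pb v)
    have h3 := mul_self_nonneg (∑ i, pa v i)
    have h4 := mul_self_nonneg (∑ i, pb v i)
    have h5 : min R 1 * (pa v ⬝ᵥ pa v) ≤ R * (pa v ⬝ᵥ pa v) :=
      mul_le_mul_of_nonneg_right (min_le_left _ _) h1
    have h6 : min R 1 * (pb v ⬝ᵥ pb v) ≤ 1 * (pb v ⬝ᵥ pb v) :=
      mul_le_mul_of_nonneg_right (min_le_right _ _) h2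
    have h7 := mul_nonneg hR.le h3
    nlinarith
  · have h1 := hK' v
    have h2 : 0 ≤ (v - Dl α β R *ᵥ v) ⬝ᵥ (v - Dl α β R *ᵥ v) := dot_self_nonneg _
    rw [sub_dotProduct, dotProduct_sub, dotProduct_sub,
      dotProduct_comm (Dl α β R *ᵥ v) v] at h2
    linarith

lemma ybase_pos : Pos (ybase e) := by
  have hR : (0 : ℝ) < RR β := by
    rw [RR]; positivity
  obtain ⟨c, C, hc, hB⟩ := Dl_pos (α := α) (β := β) hR
  have h1 : uR (-(Bhat e)) * uR (Bhat e) = 1 := by
    rw [← uR_add, neg_add_cancel]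
    simp [uR]
  obtain ⟨c', C', hc', hB'⟩ := Bd_cong hc hB h1
  refine ⟨c', C', hc', ?_⟩
  rw [ybase_sym]
  exact hB'

lemma Pos_eventually : ∀ᶠ z in 𝓝 (ybase e), Pos z := by
  obtain ⟨c, C, hc, hB⟩ := ybase_pos e
  have hcont : Continuous (fun z : Matrix (α ⊕ β) (α ⊕ β) ℝ => z + zᵀ) :=
    continuous_id.add continuous_id.matrix_transpose
  filter_upwards [hcont.continuousAt.eventually (Bd_eventually hc hB)] with z hz
  exact ⟨c / 2, C + c / 2, by linarith, hz⟩

/-- The vectors of the main simplex. -/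
lemma main_vertex (i : Fin (m + 1)) :
    Lg e ((1 : GL (α ⊕ β) ℤ)⁻¹ * Fin.partialProd (tGL e ∘ (1 : Equiv.Perm (Fin m))) i) (ybase e) =
      fun k => (vM e 1 i * cJ β) (e k).1 (e k).2 := by
  rw [inv_one, one_mul, Lg, cong_vertex]
  funext k
  rw [blkv, ← blk_cong_uR (RR β)]
  rfl

lemma sum_vM : ∑ i : Fin (m + 1), vM e 1 i = 0 := by
  ext a b
  rw [Matrix.sum_apply]
  simp only [vM, chainM, Bhat, Matrix.sub_apply, Matrix.map_apply, Matrix.of_apply,
    Finset.sum_sub_distrib, Matrix.zero_apply]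
  set k := e.symm (a, b) with hk
  have h1 : ∑ i : Fin (m + 1), (Int.castRingHom ℝ)
      (if (((1 : Equiv.Perm (Fin m)).symm k : Fin m) : ℕ) < (i : ℕ) then 1 else 0) =
      (m : ℝ) - (k : ℕ) := by
    have h2 : ∀ i : Fin (m + 1), (Int.castRingHom ℝ)
      (if (((1 : Equiv.Perm (Fin m)).symm k : Fin m) : ℕ) < (i : ℕ) then 1 else 0) =
      if ((k : ℕ) < (i : ℕ)) then (1 : ℝ) else 0 := by
      intro i
      have : (1 : Equiv.Perm (Fin m)).symm k = k := rfl
      rw [this]
      split_ifs <;> simp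
    simp only [h2]
    rw [Finset.sum_boole]
    have h3 : (Finset.univ.filter (fun i : Fin (m + 1) => (k : ℕ) < (i : ℕ))).card = m - k := by
      have h4 : Finset.univ.filter (fun i : Fin (m + 1) => (k : ℕ) < (i : ℕ)) =
          Finset.Ioi (k.castSucc) := by
        ext i
        simp [Fin.lt_def]
      rw [h4, Fin.card_Ioi]
      simp
    rw [h3, Nat.cast_sub k.2.le]
  rw [h1]
  simp only [Finset.sum_const, Finset.card_univ, Fintype.card_fin, nsmul_eq_mul]
  push_cast
  field_simp
  ring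

lemma diff_vM (i : Fin m) : vM e 1 i.succ - vM e 1 i.castSucc =
    Matrix.single (e i).1 (e i).2 1 := by
  ext a b
  simp only [vM, chainM, Matrix.sub_apply, Matrix.map_apply, Matrix.of_apply, Fin.val_succ,
    Fin.val_castSucc, Matrix.single_apply]
  have : (1 : Equiv.Perm (Fin m)).symm (e.symm (a, b)) = e.symm (a, b) := rfl
  rw [this]
  by_cases h : e.symm (a, b) = i
  · have h2 : e i = (a, b) := by rw [← h, Equiv.apply_symm_apply]
    rw [h, h2]
    simp
  · have h2 : ¬ ((e i).1 = a ∧ (e i).2 = b) := by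
      rintro ⟨h3, h4⟩
      apply h
      rw [Equiv.symm_apply_eq]
      exact (Prod.ext h3 h4).symm
    rw [if_neg h2]
    have h3 : ((e.symm (a, b) : Fin m) : ℕ) ≠ (i : ℕ) := fun h3 => h (Fin.ext h3)
    by_cases h4 : ((e.symm (a, b) : Fin m) : ℕ) < (i : ℕ)
    · rw [if_pos (by omega), if_pos h4]
      ring
    · rw [if_neg (by omega), if_neg h4]
      ring

lemma main_sign : ∃ s : ℤ, s ≠ 0 ∧ ∀ᶠ v in 𝓝 (fun i : Fin (m + 1) =>
    Lg e ((1 : GL (α ⊕ β) ℤ)⁻¹ * Fin.partialProd (tGL e ∘ (1 : Equiv.Perm (Fin m))) i) (ybase e)),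
    f0 v = s := by
  apply f0_eventually_sign
  · simp only [main_vertex]
    funext k
    rw [Finset.sum_apply]
    have h := congrArg (fun M : Matrix α β ℝ => (M * cJ β) (e k).1 (e k).2) (sum_vM e)
    simp only [Matrix.zero_mul, Matrix.zero_apply, Matrix.sum_mul, Matrix.sum_apply] at h
    exact h
  · intro hdet
    obtain ⟨x, hx, hx0⟩ := Matrix.exists_mulVec_eq_zero_iff.2 hdet
    apply hx
    simp only [main_vertex] at hx0
    let X : Matrix α β ℝ := Matrix.of fun a b => x (e.symm (a, b))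
    have hpair : ∀ N : Matrix α β ℝ, (fun k => (N * cJ β) (e k).1 (e k).2) ⬝ᵥ x =
        ∑ a, ∑ b, (N * cJ β) a b * X a b := by
      intro N
      rw [dotProduct, ← Equiv.sum_comp e.symm, Fintype.sum_prod_type]
      simp [X]
    have hsucc : ∀ i : Fin m, ∑ a, ∑ b, (vM e 1 i.succ * cJ β) a b * X a b = 0 := by
      intro i
      rw [← hpair]
      exact congrFun hx0 i
    have hadd : ∀ N N' : Matrix α β ℝ, ∑ a, ∑ b, ((N + N') * cJ β) a b * X a b =
        ∑ a, ∑ b, (N * cJ β) a b * X a b + ∑ a, ∑ b, (N' * cJ β) a b * X a b := by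
      intro N N'
      simp only [Matrix.add_mul, Matrix.add_apply, add_mul, Finset.sum_add_distrib]
    have hsumN : ∀ (s : Finset (Fin m)) (N : Fin m → Matrix α β ℝ),
        ∑ a, ∑ b, ((∑ i ∈ s, N i) * cJ β) a b * X a b =
        ∑ i ∈ s, ∑ a, ∑ b, (N i * cJ β) a b * X a b := by
      intro s N
      induction s using Finset.induction_on with
      | empty => simp
      | insert i s hi ih => rw [Finset.sum_insert hi, Finset.sum_insert hi, hadd, ih]
    have hzero : ∑ a, ∑ b, (vM e 1 0 * cJ β) a b * X a b = 0 := by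
      have h1 := sum_vM e
      rw [Fin.sum_univ_succ] at h1
      have h2 := hadd (vM e 1 0) (∑ i : Fin m, vM e 1 i.succ)
      rw [h1, hsumN] at h2
      simp only [hsucc, Finset.sum_const_zero, add_zero, Matrix.zero_mul, Matrix.zero_apply,
        zero_mul] at h2
      exact h2.symm
    have hall : ∀ i : Fin (m + 1), ∑ a, ∑ b, (vM e 1 i * cJ β) a b * X a b = 0 := fun i =>
      Fin.cases hzero hsucc i
    have hdiff : ∀ i : Fin m, ∑ a, ∑ b, (Matrix.single (e i).1 (e i).2 (1 : ℝ) * cJ β) a b * X a b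
        = 0 := by
      intro i
      have h1 := hadd (Matrix.single (e i).1 (e i).2 (1 : ℝ)) (vM e 1 i.castSucc)
      rw [← diff_vM, sub_add_cancel, hall, hall, add_zero] at h1
      rw [← diff_vM]
      exact h1.symm
    have hX : X * cJ β = 0 := by
      ext a b
      have h1 := hdiff (e.symm (a, b))
      rw [Equiv.apply_symm_apply] at h1
      simp only [Matrix.mul_apply, Matrix.single_apply] at h1
      rw [Finset.sum_eq_single a] at h1
      · rw [Matrix.mul_apply, Matrix.zero_apply, ← h1]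
        refine Finset.sum_congr rfl (fun j _ => ?_)
        rw [Finset.sum_eq_single b]
        · have : cJ β j b = cJ β b j := by
            conv_lhs => rw [← cJ_symm β]
            rfl
          rw [this]
          simp
          ring
        · intro b' _ hb'
          simp [Ne.symm hb']
        · simp
      · intro a' _ ha'
        apply Finset.sum_eq_zero
        intro b' _
        simp [Ne.symm ha']
      · simp
    have hX0 := mul_cJ_eq_zero hX
    funext k
    have := congrFun (congrFun hX0 (e k).1) (e k).2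
    simpa [X] using this

end special

end Pool.Agent.H70
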