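import Mathlib

set_option autoImplicit false

/-!
The homology class of a torus: for pairwise commuting elements `t 0, ..., t (m-1)` of a group `G`
the chain `∑ σ, sign σ • [t (σ 0) | ... | t (σ (m-1))]` is a cycle in the inhomogeneous bar complex.
-/

namespace Pool.Agent.H70

open CategoryTheory

/-- The trivial representation of `G` on `ℚ`. -/
noncomputable abbrev trivQ (G : Type) [Group G] : Rep ℚ G := Rep.trivial ℚ G ℚ

/-- `H_m(G; ℚ)`. -/
noncomputable abbrev HQ (G : Type) [Group G] (m : ℕ) : ModuleCat ℚ := groupHomology (trivQ G) m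

/-- The identity map of `ℚ`, as a morphism of representations of `G` from the trivial
representation to the restriction of the trivial representation of `H`. -/
noncomputable def idQ {G H : Type} [Group G] [Group H] (f : G →* H) :
    trivQ G ⟶ Rep.res f (trivQ H) :=
  Rep.ofHom ⟨LinearMap.id, fun _ => rfl⟩

/-- The map `H_m(G; ℚ) ⟶ H_m(H; ℚ)` induced by a homomorphism. -/
noncomputable def mapQ {G H : Type} [Group G] [Group H] (f : G →* H) (m : ℕ) :
    HQ G m ⟶ HQ H m :=
  groupHomology.map f (idQ f) m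

variable {G : Type} [Group G]

/-- The chain `∑ σ, sign σ • [t (σ 0) | ... | t (σ (m-1))]`. -/
noncomputable def torusChain {m : ℕ} (t : Fin m → G) : (Fin m → G) →₀ ℚ :=
  ∑ σ : Equiv.Perm (Fin m), Finsupp.single (t ∘ σ) ((Equiv.Perm.sign σ : ℤ) : ℚ)

lemma sum_sign_eq_zero {m : ℕ} {M : Type*} [AddCommGroup M] [Module ℚ M]
    (f : Equiv.Perm (Fin m) → ℚ → M) (τ : Equiv.Perm (Fin m)) (hτ : Equiv.Perm.sign τ = -1)
    (hf : ∀ σ a, f (σ * τ) a = f σ a) (hneg : ∀ σ a, f σ (-a) = - f σ a) :
    ∑ σ : Equiv.Perm (Fin m), f σ ((Equiv.Perm.sign σ : ℤ) : ℚ) = 0 := by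
  have h1 : ∑ σ : Equiv.Perm (Fin m), f σ ((Equiv.Perm.sign σ : ℤ) : ℚ) =
      ∑ σ : Equiv.Perm (Fin m), f (σ * τ) ((Equiv.Perm.sign (σ * τ) : ℤ) : ℚ) :=
    (Equiv.sum_comp (Equiv.mulRight τ) (fun σ => f σ ((Equiv.Perm.sign σ : ℤ) : ℚ))).symm
  have h2 : ∀ σ : Equiv.Perm (Fin m), f (σ * τ) ((Equiv.Perm.sign (σ * τ) : ℤ) : ℚ) =
      - f σ ((Equiv.Perm.sign σ : ℤ) : ℚ) := by
    intro σ
    rw [hf, ← hneg]
    congr 1
    rw [Equiv.Perm.sign_mul, hτ]
    push_cast
    simp
  rw [Finset.sum_congr rfl (fun σ _ => h2 σ), Finset.sum_neg_distrib] at h1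
  have : IsAddTorsionFree M := .of_module_rat _
  exact self_eq_neg.mp h1

lemma contractNth_swap {m : ℕ} (t : Fin (m + 1) → G) (ht : ∀ i j, Commute (t i) (t j))
    (σ : Equiv.Perm (Fin (m + 1))) (j : Fin m) :
    Fin.contractNth j.castSucc (· * ·) (t ∘ (σ * Equiv.swap j.castSucc j.succ : Equiv.Perm _)) =
      Fin.contractNth j.castSucc (· * ·) (t ∘ σ) := by
  funext k
  simp only [Fin.contractNth, Function.comp_apply, Equiv.Perm.mul_apply]
  rcases lt_trichotomy (k : ℕ) (j.castSucc : Fin (m + 1)) with h | h | h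
  · rw [if_pos h, if_pos h, Equiv.swap_apply_of_ne_of_ne]
    · intro e
      rw [Fin.ext_iff] at e
      simp at e h
      omega
    · intro e
      rw [Fin.ext_iff] at e
      simp at e h
      omega
  · have hk : k = j := by
      rw [Fin.ext_iff]
      simpa using h
    subst hk
    simp only [lt_irrefl, if_false, Fin.val_castSucc, if_true]
    rw [Equiv.swap_apply_left, Equiv.swap_apply_right]
    exact ht _ _
  · rw [if_neg (by omega), if_neg (by omega), if_neg (by omega), if_neg (by omega),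
      Equiv.swap_apply_of_ne_of_ne]
    · intro e
      rw [Fin.ext_iff] at e
      simp at e h
      omega
    · intro e
      rw [Fin.ext_iff] at e
      simp at e h
      omega

lemma contractNth_last_rotate {m : ℕ} (t : Fin (m + 1) → G) (σ : Equiv.Perm (Fin (m + 1))) :
    Fin.contractNth (Fin.last m) (· * ·) (t ∘ (σ * finRotate (m + 1) : Equiv.Perm _)) =
      fun i => (t ∘ σ) i.succ := by
  funext k
  simp only [Fin.contractNth, Function.comp_apply, Equiv.Perm.mul_apply]
  rw [if_pos (by simp)]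
  congr 2
  rw [finRotate_apply, Fin.coeSucc_eq_succ]

lemma d_torusChain {m : ℕ} (t : Fin (m + 1) → G) (ht : ∀ i j, Commute (t i) (t j)) :
    groupHomology.inhomogeneousChains.d (trivQ G) m (torusChain t) = 0 := by
  have key : ∀ σ : Equiv.Perm (Fin (m + 1)),
      groupHomology.inhomogeneousChains.d (trivQ G) m
        (Finsupp.single (t ∘ σ) ((Equiv.Perm.sign σ : ℤ) : ℚ)) =
      (Finsupp.single (fun i => (t ∘ σ) i.succ) ((Equiv.Perm.sign σ : ℤ) : ℚ) +
        (-1 : ℚ) ^ (m + 1) • Finsupp.single (Fin.contractNth (Fin.last m) (· * ·) (t ∘ σ))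
          ((Equiv.Perm.sign σ : ℤ) : ℚ)) + 
      ∑ j : Fin m, (-1 : ℚ) ^ ((j : ℕ) + 1) •
        Finsupp.single (Fin.contractNth j.castSucc (· * ·) (t ∘ σ))
          ((Equiv.Perm.sign σ : ℤ) : ℚ) := by
    intro σ
    rw [groupHomology.inhomogeneousChains.d_single, Fin.sum_univ_castSucc]
    simp only [Fin.val_castSucc, Fin.val_last]
    rw [add_comm (∑ j : Fin m, _), ← add_assoc]
    rfl
  rw [torusChain, map_sum, Finset.sum_congr rfl (fun σ _ => key σ), Finset.sum_add_distrib,
    Finset.sum_add_distrib, Finset.sum_comm]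
  have hA : ∑ j : Fin m, ∑ σ : Equiv.Perm (Fin (m + 1)), (-1 : ℚ) ^ ((j : ℕ) + 1) •
        (Finsupp.single (Fin.contractNth j.castSucc (· * ·) (t ∘ σ))
          ((Equiv.Perm.sign σ : ℤ) : ℚ) : (Fin m → G) →₀ ℚ) = 0 := by
    refine Finset.sum_eq_zero (fun j _ => ?_)
    rw [← Finset.smul_sum]
    rw [sum_sign_eq_zero (fun σ a => (Finsupp.single (Fin.contractNth j.castSucc (· * ·) (t ∘ σ)) a :
      (Fin m → G) →₀ ℚ)) (Equiv.swap j.castSucc j.succ), smul_zero]
    · rw [Equiv.Perm.sign_swap]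
      exact (Fin.castSucc_lt_succ).ne
    · intro σ a
      rw [contractNth_swap t ht]
    · intro σ a
      exact Finsupp.single_neg _ _
  have hB : ∑ σ : Equiv.Perm (Fin (m + 1)), (-1 : ℚ) ^ (m + 1) •
      (Finsupp.single (Fin.contractNth (Fin.last m) (· * ·) (t ∘ σ))
          ((Equiv.Perm.sign σ : ℤ) : ℚ) : (Fin m → G) →₀ ℚ) =
      - ∑ σ : Equiv.Perm (Fin (m + 1)), (Finsupp.single (fun i => (t ∘ σ) i.succ)
        ((Equiv.Perm.sign σ : ℤ) : ℚ) : (Fin m → G) →₀ ℚ) := by
    rw [← Finset.smul_sum, ← Equiv.sum_comp (Equiv.mulRight (finRotate (m + 1))),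
      ← Finset.sum_neg_distrib, Finset.smul_sum]
    refine Finset.sum_congr rfl (fun σ _ => ?_)
    simp only [Equiv.coe_mulRight]
    rw [contractNth_last_rotate, Equiv.Perm.sign_mul, sign_finRotate, Finsupp.smul_single,
      ← Finsupp.single_neg]
    congr 1
    push_cast
    simp only [smul_eq_mul]
    rw [pow_succ]
    have h1 : ((-1 : ℚ) ^ m) * (-1) ^ m = 1 := by
      rw [← mul_pow]; simp
    calc (-1 : ℚ) ^ m * -1 * (((Equiv.Perm.sign σ : ℤ) : ℚ) * (-1) ^ m)
        = - (((-1 : ℚ) ^ m * (-1) ^ m) * ((Equiv.Perm.sign σ : ℤ) : ℚ)) := by ring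
      _ = _ := by rw [h1, one_mul]
  erw [hA, hB]
  rw [add_zero]
  exact add_neg_cancel _

lemma cycle_torusChain {m : ℕ} (t : Fin m → G) (ht : ∀ i j, Commute (t i) (t j)) :
    (groupHomology.inhomogeneousChains (trivQ G)).d m ((ComplexShape.down ℕ).next m)
      (torusChain t) = 0 := by
  cases m with
  | zero =>
    rw [(groupHomology.inhomogeneousChains (trivQ G)).shape]
    · rfl
    · simp
  | succ m =>
    have h : (ComplexShape.down ℕ).next (m + 1) = m := by simp
    rw [h, groupHomology.inhomogeneousChains.d_def]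
    exact d_torusChain t ht

/-- The class in `H_m(G; ℚ)` of the torus given by pairwise commuting elements
`t 0, ..., t (m-1)`: it is the class of the cycle
`∑ σ, sign σ • [t (σ 0) | ... | t (σ (m-1))]`. -/
noncomputable def torusClass {m : ℕ} (t : Fin m → G) (ht : ∀ i j, Commute (t i) (t j)) :
    HQ G m :=
  groupHomology.π (trivQ G) m
    (groupHomology.cyclesMk m _ rfl (torusChain t) (cycle_torusChain t ht))

lemma map_torusChain {H : Type} [Group H] (f : G →* H) {m : ℕ} (t : Fin m → G) :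
    Finsupp.mapDomain (f ∘ ·) (torusChain t) = torusChain (f ∘ t) := by
  rw [torusChain, torusChain, Finsupp.mapDomain_finsetSum]
  refine Finset.sum_congr rfl (fun σ _ => ?_)
  rw [Finsupp.mapDomain_single]
  rfl

lemma chainsMap_torusChain {H : Type} [Group H] (f : G →* H) {m : ℕ} (t : Fin m → G) :
    (groupHomology.chainsMap f (idQ f)).f m (torusChain t) = torusChain (f ∘ t) := by
  rw [torusChain, torusChain]
  erw [map_sum]
  refine Finset.sum_congr rfl (fun σ _ => ?_)
  erw [groupHomology.chainsMap_f_single]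
  rfl

/-- The homology map sends the class of a torus to the class of its image. -/
theorem mapQ_torusClass {H : Type} [Group H] (f : G →* H) {m : ℕ} (t : Fin m → G)
    (ht : ∀ i j, Commute (t i) (t j)) :
    mapQ f m (torusClass t ht) = torusClass (f ∘ t) (fun i j => (ht i j).map f) := by
  rw [mapQ, torusClass, torusClass]
  erw [groupHomology.π_map_apply]
  congr 1
  apply (ModuleCat.mono_iff_injective (groupHomology.iCycles (trivQ H) m)).1 inferInstance
  rw [groupHomology.iCycles_mk]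
  erw [← ConcreteCategory.comp_apply, HomologicalComplex.cyclesMap_i, ConcreteCategory.comp_apply]
  erw [groupHomology.iCycles_mk]
  exact chainsMap_torusChain f t

/-- A linear functional on chains that kills boundaries detects homology classes. -/
theorem torusClass_ne_zero_of_functional {m : ℕ} (t : Fin m → G)
    (ht : ∀ i j, Commute (t i) (t j)) (Φ : ((Fin m → G) →₀ ℚ) →ₗ[ℚ] ℚ)
    (hΦ : ∀ x : Fin (m + 1) → G, ∀ a : ℚ,
      Φ (groupHomology.inhomogeneousChains.d (trivQ G) m (Finsupp.single x a)) = 0)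
    (h : Φ (torusChain t) ≠ 0) : torusClass t ht ≠ 0 := by
  intro h0
  apply h
  set K := groupHomology.inhomogeneousChains (trivQ G) with hK
  let k : K.X m ⟶ ModuleCat.of ℚ ℚ := ModuleCat.ofHom Φ
  have hprev : (ComplexShape.down ℕ).prev m = m + 1 := by simp
  have hk : K.d (m + 1) m ≫ k = 0 := by
    rw [groupHomology.inhomogeneousChains.d_def]
    apply ModuleCat.hom_ext
    apply Finsupp.lhom_ext
    intro x a
    exact hΦ x a
  have h1 : K.homologyπ m ≫ K.homologyι m ≫ K.descOpcycles k (m + 1) hprev hk =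
      K.iCycles m ≫ k := by
    rw [← Category.assoc, HomologicalComplex.homology_π_ι, Category.assoc,
      HomologicalComplex.p_descOpcycles]
  have h2 := congrArg (fun φ => φ (groupHomology.cyclesMk m _ rfl (torusChain t)
    (cycle_torusChain t ht))) h1
  simp only [ConcreteCategory.comp_apply] at h2
  have h3 : (K.homologyπ m) (groupHomology.cyclesMk m _ rfl (torusChain t)
    (cycle_torusChain t ht)) = 0 := h0
  rw [h3, map_zero, map_zero] at h2
  have h4 := groupHomology.iCycles_mk (A := trivQ G) rfl (torusChain t) (cycle_torusChain t ht)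
  have h5 : K.iCycles m (groupHomology.cyclesMk m _ rfl (torusChain t)
    (cycle_torusChain t ht)) = torusChain t := h4
  rw [h5] at h2
  exact h2.symm

/-- A homogeneous rational cocycle detects the class of a torus. -/
theorem torusClass_ne_zero_of_cocycle {m : ℕ} (t : Fin m → G)
    (ht : ∀ i j, Commute (t i) (t j)) (F : (Fin (m + 1) → G) → ℚ)
    (hinv : ∀ (g : G) (γ : Fin (m + 1) → G), F (fun i => g * γ i) = F γ)
    (hcoc : ∀ γ : Fin (m + 2) → G, ∑ i : Fin (m + 2), (-1 : ℚ) ^ (i : ℕ) * F (γ ∘ i.succAbove) = 0)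
    (h : ∑ σ : Equiv.Perm (Fin m), ((Equiv.Perm.sign σ : ℤ) : ℚ) * F (Fin.partialProd (t ∘ σ)) ≠ 0) :
    torusClass t ht ≠ 0 := by
  let Φ : ((Fin m → G) →₀ ℚ) →ₗ[ℚ] ℚ :=
    Finsupp.lsum ℚ (fun x => (F (Fin.partialProd x)) • (LinearMap.id : ℚ →ₗ[ℚ] ℚ))
  have hΦs : ∀ (x : Fin m → G) (a : ℚ), Φ (Finsupp.single x a) = F (Fin.partialProd x) * a := by
    intro x a
    simp [Φ]
  refine torusClass_ne_zero_of_functional t ht Φ ?_ ?_
  · intro x a
    rw [groupHomology.inhomogeneousChains.d_single]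
    erw [map_add, map_sum, hΦs]
    have h1 : ∀ j : Fin (m + 1), Φ ((-1 : ℚ) ^ ((j : ℕ) + 1) •
        Finsupp.single (Fin.contractNth j (· * ·) x) a) =
        ((-1 : ℚ) ^ ((j.succ : Fin (m + 2)) : ℕ) * F (Fin.partialProd x ∘ j.succ.succAbove)) * a := by
      intro j
      rw [map_smul, hΦs, Fin.partialProd_contractNth]
      simp [mul_assoc]
    have h2 : F (Fin.partialProd (fun i : Fin m => x i.succ)) =
        F (Fin.partialProd x ∘ (0 : Fin (m + 2)).succAbove) := by
      rw [← hinv (x 0)]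
      congr 1
      funext i
      simp only [Function.comp_apply, Fin.succAbove_zero]
      rw [Fin.partialProd_succ']
      rfl
    have h3 := hcoc (Fin.partialProd x)
    rw [Fin.sum_univ_succ] at h3
    erw [Finset.sum_congr rfl (fun j _ => h1 j)]
    rw [← Finset.sum_mul, h2]
    have h4 : ((trivQ G).ρ (x 0)⁻¹) a = a := rfl
    rw [h4, ← add_mul]
    simp only [Fin.val_zero, pow_zero, one_mul] at h3
    rw [h3, zero_mul]
  · rw [torusChain, map_sum]
    simp only [hΦs]
    intro h0
    apply h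
    rw [← h0]
    exact Finset.sum_congr rfl (fun σ _ => mul_comm _ _)

end Pool.Agent.H70
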