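import Mathlib
import Pool.Agent.H70.Local
import Pool.Agent.H70.Torus

set_option autoImplicit false
set_option linter.unusedSectionVars false

/-!
The class of the unipotent torus is nonzero.
-/

namespace Pool.Agent.H70

open Matrix Filter Topology

variable {α β : Type} [Fintype α] [Fintype β] [DecidableEq α] [DecidableEq β]
variable {m : ℕ} (e : Fin m ≃ α × β)

lemma finsum_eq_on {ι : Type} (f : ι → ℤ) (S : Finset ι) (h : Function.support f ⊆ S) :
    ∑ᶠ i, f i = ∑ i ∈ S, f i := finsum_eq_sum_of_support_subset f h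

lemma term_eventually_zero (ha : Even (Fintype.card α)) (hb : Even (Fintype.card β))
    (hα : 0 < Fintype.card α) (hβ : 0 < Fintype.card β)
    (hne : Fintype.card α ≠ Fintype.card β) (σ : Equiv.Perm (Fin m)) (g : GL (α ⊕ β) ℤ)
    (h : ¬ (σ = 1 ∧ (g : GL (α ⊕ β) ℤ ⧸ Levi α β) = (1 : GL (α ⊕ β) ℤ))) :
    ∀ᶠ z in 𝓝 (fun _ : Fin (m + 1) => ybase e),
      term e (Fin.partialProd (tGL e ∘ σ)) z (g : GL (α ⊕ β) ℤ ⧸ Levi α β) = 0 := by
  have h1 := f0_eventually_zero (fun i : Fin (m + 1) =>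
    Lg e (g⁻¹ * Fin.partialProd (tGL e ∘ σ) i) (ybase e)) (fun w hw hw1 h0 =>
      h (exact_hull e hα hβ hne σ g w hw hw1 h0))
  have hcont : Continuous (fun z : Fin (m + 1) → Matrix (α ⊕ β) (α ⊕ β) ℝ =>
      fun i => Lg e (g⁻¹ * Fin.partialProd (tGL e ∘ σ) i) (z i)) :=
    continuous_pi (fun i => (continuous_Lg e _).comp (continuous_apply i))
  filter_upwards [hcont.continuousAt.eventually h1] with z hz
  rw [term_mk e ha hb]
  exact hz

lemma term_eventually_sign (ha : Even (Fintype.card α)) (hb : Even (Fintype.card β)) :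
    ∃ s : ℤ, s ≠ 0 ∧ ∀ᶠ z in 𝓝 (fun _ : Fin (m + 1) => ybase e),
      term e (Fin.partialProd (tGL e ∘ (1 : Equiv.Perm (Fin m)))) z
        ((1 : GL (α ⊕ β) ℤ) : GL (α ⊕ β) ℤ ⧸ Levi α β) = s := by
  obtain ⟨s, hs, hev⟩ := main_sign e
  refine ⟨s, hs, ?_⟩
  have hcont : Continuous (fun z : Fin (m + 1) → Matrix (α ⊕ β) (α ⊕ β) ℝ =>
      fun i => Lg e ((1 : GL (α ⊕ β) ℤ)⁻¹ *
        Fin.partialProd (tGL e ∘ (1 : Equiv.Perm (Fin m))) i) (z i)) :=
    continuous_pi (fun i => (continuous_Lg e _).comp (continuous_apply i))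
  filter_upwards [hcont.continuousAt.eventually hev] with z hz
  rw [term_mk e ha hb]
  exact hz

lemma support_eventually (ha : Even (Fintype.card α)) (hb : Even (Fintype.card β))
    (γ : Fin (m + 1) → GL (α ⊕ β) ℤ) :
    ∃ S : Finset (GL (α ⊕ β) ℤ ⧸ Levi α β), ∀ᶠ z in 𝓝 (fun _ : Fin (m + 1) => ybase e),
      Function.support (term e γ z) ⊆ S := by
  obtain ⟨c, C, hc, hB⟩ := uniform_bounds (fun i : Fin (m + 1) =>
    cong (toR (γ i)) (ybase e + (ybase e)ᵀ)) (fun i => by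
      obtain ⟨c, C, hc, hB⟩ := ybase_pos e
      obtain ⟨c', C', hc', hB'⟩ := Bd_cong hc hB (toR_mul_inv (γ i))
      exact ⟨c', C', hc', hB'⟩)
  refine ⟨(finite_splits (α := α) (β := β) (c / 2) (C + c / 2) (by linarith)).toFinset, ?_⟩
  have hev : ∀ i : Fin (m + 1), ∀ᶠ z in 𝓝 (fun _ : Fin (m + 1) => ybase e),
      Bd (c / 2) (C + c / 2) (cong (toR (γ i)) (z i + (z i)ᵀ)) := by
    intro i
    have hcont : Continuous (fun z : Fin (m + 1) → Matrix (α ⊕ β) (α ⊕ β) ℝ =>
        cong (toR (γ i)) (z i + (z i)ᵀ)) :=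
      (continuous_cong_sym (toR (γ i))).comp (continuous_apply i)
    exact hcont.continuousAt.eventually (Bd_eventually hc (hB i))
  filter_upwards [eventually_all.2 hev] with z hz
  intro q hq
  rw [Set.Finite.coe_toFinset]
  exact term_support e ha hb γ z hz hq

lemma Psi_eventually (ha : Even (Fintype.card α)) (hb : Even (Fintype.card β))
    (hα : 0 < Fintype.card α) (hβ : 0 < Fintype.card β)
    (hne : Fintype.card α ≠ Fintype.card β) :
    ∃ s : ℤ, s ≠ 0 ∧ ∀ᶠ z in 𝓝 (fun _ : Fin (m + 1) => ybase e),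
      ∀ σ : Equiv.Perm (Fin m), Psi e (Fin.partialProd (tGL e ∘ σ)) z = if σ = 1 then s else 0 := by
  classical
  obtain ⟨s, hs, hev1⟩ := term_eventually_sign e ha hb
  refine ⟨s, hs, ?_⟩
  rw [eventually_all]
  intro σ
  obtain ⟨S, hS⟩ := support_eventually e ha hb (Fin.partialProd (tGL e ∘ σ))
  set q1 : GL (α ⊕ β) ℤ ⧸ Levi α β := ((1 : GL (α ⊕ β) ℤ) : GL (α ⊕ β) ℤ ⧸ Levi α β) with hq1
  have hev2 : ∀ q ∈ insert q1 S, ∀ᶠ z in 𝓝 (fun _ : Fin (m + 1) => ybase e),
      term e (Fin.partialProd (tGL e ∘ σ)) z q = if σ = 1 ∧ q = q1 then s else 0 := by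
    intro q _
    by_cases h : σ = 1 ∧ q = q1
    · rw [h.1, h.2]
      filter_upwards [hev1] with z hz
      rw [hz]
      simp
    · induction q using QuotientGroup.induction_on with
      | H g =>
        filter_upwards [term_eventually_zero e ha hb hα hβ hne σ g h] with z hz
        rw [hz, if_neg h]
  filter_upwards [hS, (Finset.eventually_all _).2 hev2] with z hz1 hz2
  rw [Psi, finsum_eq_on _ (insert q1 S) (hz1.trans (by
    intro q hq
    rw [Finset.coe_insert]
    exact Set.mem_insert_of_mem _ hq))]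
  rw [Finset.sum_congr rfl hz2]
  by_cases hσ : σ = 1
  · simp [hσ]
  · simp [hσ]

/-- For finite types `α`, `β` of distinct positive even cardinalities, the class in
`H_{|α||β|}(GL(α ⊕ β, ℤ); ℚ)` of the torus of unipotent matrices with upper right block is
nonzero. -/
theorem unipotent_torus_ne_zero (ha : Even (Fintype.card α)) (hb : Even (Fintype.card β))
    (hα : 0 < Fintype.card α) (hβ : 0 < Fintype.card β)
    (hne : Fintype.card α ≠ Fintype.card β) (hcomm : ∀ i j, Commute (tGL e i) (tGL e j)) :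
    torusClass (tGL e) hcomm ≠ 0 := by
  obtain ⟨s, hs, hev⟩ := Psi_eventually e ha hb hα hβ hne
  -- an open set of base points
  have hW : ∃ W : Set (Matrix (α ⊕ β) (α ⊕ β) ℝ), IsOpen W ∧ W.Nonempty ∧
      (∀ z ∈ W, Pos z) ∧ ∀ z : Fin (m + 1) → Matrix (α ⊕ β) (α ⊕ β) ℝ, (∀ i, z i ∈ W) →
        ∀ σ : Equiv.Perm (Fin m), Psi e (Fin.partialProd (tGL e ∘ σ)) z =
          if σ = 1 then s else 0 := by
    have h1 : {z : Fin (m + 1) → Matrix (α ⊕ β) (α ⊕ β) ℝ |
        ∀ σ : Equiv.Perm (Fin m), Psi e (Fin.partialProd (tGL e ∘ σ)) z =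
          if σ = 1 then s else 0} ∈ 𝓝 (fun _ : Fin (m + 1) => ybase e) := hev
    rw [nhds_pi, Filter.mem_pi] at h1
    obtain ⟨I, hI, t, ht, hsub⟩ := h1
    have h2 : ∀ᶠ z in 𝓝 (ybase e), Pos z ∧ ∀ i, z ∈ t i := by
      refine (Pos_eventually e).and ?_
      rw [eventually_all]
      exact fun i => ht i
    obtain ⟨W, hW1, hW2, hW3⟩ := eventually_nhds_iff.1 h2
    refine ⟨W, hW2, ⟨_, hW3⟩, fun z hz => (hW1 z hz).1, ?_⟩
    intro z hz
    exact hsub (fun i _ => (hW1 (z i) (hz i)).2 i)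
  obtain ⟨W, hWo, hWne, hWpos, hWPsi⟩ := hW
  obtain ⟨y, hyW, hyG⟩ := exists_generic e W hWo hWne
  apply torusClass_ne_zero_of_cocycle (tGL e) hcomm (fun γ => ((Fco e y γ : ℤ) : ℚ))
  · intro g γ
    rw [Fco_inv e ha hb]
  · intro γ
    have h := Fco_cocycle e ha hb y hyG (fun i => hWpos _ (hyW i)) γ
    have h' := congrArg (fun x : ℤ => (x : ℚ)) h
    push_cast at h'
    exact h'
  · have h1 : ∑ σ : Equiv.Perm (Fin m), ((Equiv.Perm.sign σ : ℤ) : ℚ) *
        ((Fco e y (Fin.partialProd (tGL e ∘ σ)) : ℤ) : ℚ) =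
        (((Nat.factorial (m + 2) : ℕ) : ℤ) * s : ℤ) := by
      have h2 : ∀ σ : Equiv.Perm (Fin m), Fco e y (Fin.partialProd (tGL e ∘ σ)) =
          if σ = 1 then ((Nat.factorial (m + 2) : ℕ) : ℤ) * s else 0 := by
        intro σ
        rw [Fco, Finset.sum_congr rfl (fun c _ => hWPsi (fun i => y (c i.castSucc))
          (fun i => hyW _) σ)]
        split_ifs with hσ
        · rw [Finset.sum_const, Finset.card_univ, Fintype.card_perm, Fintype.card_fin,
            nsmul_eq_mul]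
        · simp
      simp only [h2]
      rw [Finset.sum_eq_single 1]
      · simp
      · intro σ _ hσ
        simp [hσ]
      · simp
    rw [h1]
    have h3 : ((Nat.factorial (m + 2) : ℕ) : ℤ) * s ≠ 0 :=
      mul_ne_zero (by exact_mod_cast (Nat.factorial_pos _).ne') hs
    exact_mod_cast h3

end Pool.Agent.H70
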