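import Mathlib
import Pool.Agent.H70.Main

set_option autoImplicit false
set_option linter.unusedSectionVars false

/-!
Morita's classes as classes of tori in `Out(F_n)` and their images in `GL(n, ℤ)`.
-/

namespace Pool.Agent.H70

open Matrix

section out
variable (G : Type) [Group G]

/-- The inner automorphisms form a normal subgroup. -/
instance conj_range_normal : ((MulAut.conj : G →* MulAut G).range).Normal where
  conj_mem := by
    rintro _ ⟨g, rfl⟩ φ
    refine ⟨φ g, ?_⟩
    ext x
    simp [MulAut.conj_apply]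

/-- The outer automorphism group `Out(G) = Aut(G) / Inn(G)`. -/
abbrev OutAut : Type := MulAut G ⧸ (MulAut.conj : G →* MulAut G).range

end out

section rho
variable (ι : Type) [Fintype ι] [DecidableEq ι]

/-- The exponent sum vector of an element of the free group on `ι`, i.e. its image in the
abelianisation `ℤ^ι`. -/
def expVec : FreeGroup ι →* Multiplicative (ι → ℤ) :=
  FreeGroup.lift (fun i => Multiplicative.ofAdd (Pi.single i 1))

variable {ι} in
/-- The matrix of the action of an endomorphism of the free group on the abelianisation: the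
`j`-th column is the exponent sum vector of the image of the `j`-th generator. -/
def abMatrix (φ : FreeGroup ι →* FreeGroup ι) : Matrix ι ι ℤ :=
  Matrix.of fun i j => (expVec ι (φ (FreeGroup.of j))).toAdd i

variable {ι}

lemma expVec_map (φ : FreeGroup ι →* FreeGroup ι) (x : FreeGroup ι) :
    (expVec ι (φ x)).toAdd = abMatrix φ *ᵥ (expVec ι x).toAdd := by
  let f : FreeGroup ι →* Multiplicative (ι → ℤ) := (expVec ι).comp φ
  let g : FreeGroup ι →* Multiplicative (ι → ℤ) :=
    (AddMonoidHom.toMultiplicative (Matrix.mulVecLin (abMatrix φ)).toAddMonoidHom).comp (expVec ι)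
  have h : f = g := by
    apply FreeGroup.ext_hom
    intro j
    simp only [f, g, MonoidHom.comp_apply]
    have h1 : expVec ι (FreeGroup.of j) = Multiplicative.ofAdd (Pi.single j 1) := by
      simp [expVec]
    rw [h1]
    apply Multiplicative.toAdd.injective
    funext i
    change (expVec ι (φ (FreeGroup.of j))).toAdd i = (abMatrix φ *ᵥ Pi.single j 1) i
    rw [Matrix.mulVec_single_one]
    rfl
  exact congrArg Multiplicative.toAdd (DFunLike.congr_fun h x)

lemma abMatrix_comp (φ ψ : FreeGroup ι →* FreeGroup ι) :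
    abMatrix (φ.comp ψ) = abMatrix φ * abMatrix ψ := by
  ext i j
  change (expVec ι (φ (ψ (FreeGroup.of j)))).toAdd i = _
  rw [expVec_map, Matrix.mul_apply]
  rfl

lemma abMatrix_id : abMatrix (MonoidHom.id (FreeGroup ι)) = 1 := by
  ext i j
  simp [abMatrix, expVec, Matrix.one_apply, Pi.single_apply]

/-- The action of automorphisms on the abelianisation. -/
def rhoAut : MulAut (FreeGroup ι) →* GL ι ℤ :=
  MonoidHom.toHomUnits
    { toFun := fun φ => abMatrix φ.toMonoidHom
      map_one' := abMatrix_id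
      map_mul' := fun φ ψ => abMatrix_comp φ.toMonoidHom ψ.toMonoidHom }

lemma rhoAut_val (φ : MulAut (FreeGroup ι)) :
    (rhoAut φ).val = abMatrix φ.toMonoidHom := rfl

variable (ι) in
/-- The homomorphism `ρ : Out(F) → GL(ι, ℤ)` given by the action on the abelianisation. -/
def rho : OutAut (FreeGroup ι) →* GL ι ℤ :=
  QuotientGroup.lift _ rhoAut (by
    rintro _ ⟨g, rfl⟩
    apply Units.ext
    rw [rhoAut_val, Units.val_one]
    ext i j
    have h : expVec ι (g * FreeGroup.of j * g⁻¹) = expVec ι (FreeGroup.of j) := by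
      rw [map_mul, map_mul, map_inv, mul_comm (expVec ι g), mul_assoc, mul_inv_cancel, mul_one]
    change (expVec ι (g * FreeGroup.of j * g⁻¹)).toAdd i = _
    rw [h]
    simp [expVec, Matrix.one_apply, Pi.single_apply])

end rho

section tori

/-- The fundamental class of the torus with fundamental group `ℤ^ι`: the class in
`H_m(ℤ^ι; ℚ)` of the torus given by the standard basis, ordered by `e`. -/
noncomputable def fundClass {ι : Type} [DecidableEq ι] {m : ℕ} (e : Fin m ≃ ι) :
    HQ (Multiplicative (ι → ℤ)) m :=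
  torusClass (fun i => Multiplicative.ofAdd (Pi.single (e i) 1)) (fun _ _ => Commute.all _ _)

/-- The endomorphism of the free group on `a = x_0`, `b = x_1` and `y_j = x_(j+2)` fixing `a` and
`b` and sending `y_j` to `a ^ p_(0,j) * y_j * b ^ p_(1,j)`. -/
def twistHom {N : ℕ} (p : Fin 2 × Fin N → ℤ) :
    FreeGroup (Fin (N + 2)) →* FreeGroup (Fin (N + 2)) :=
  FreeGroup.lift (Fin.cons (FreeGroup.of 0) (Fin.cons (FreeGroup.of 1)
    (fun j => FreeGroup.of 0 ^ p (0, j) * FreeGroup.of j.succ.succ * FreeGroup.of 1 ^ p (1, j))))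

lemma twistHom_a {N : ℕ} (p : Fin 2 × Fin N → ℤ) :
    twistHom p (FreeGroup.of 0) = FreeGroup.of 0 := by
  simp [twistHom]

lemma twistHom_b {N : ℕ} (p : Fin 2 × Fin N → ℤ) :
    twistHom p (FreeGroup.of 1) = FreeGroup.of 1 := by
  rw [twistHom, FreeGroup.lift_apply_of]
  rfl

lemma twistHom_y {N : ℕ} (p : Fin 2 × Fin N → ℤ) (j : Fin N) :
    twistHom p (FreeGroup.of j.succ.succ) = FreeGroup.of 0 ^ p (0, j) *
      FreeGroup.of j.succ.succ * FreeGroup.of 1 ^ p (1, j) := by
  rw [twistHom, FreeGroup.lift_apply_of]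
  rfl

@[elab_as_elim]
lemma fin_cases2 {N : ℕ} {C : Fin (N + 2) → Prop} (h0 : C 0) (h1 : C 1)
    (h : ∀ j : Fin N, C j.succ.succ) (x : Fin (N + 2)) : C x := by
  refine Fin.cases h0 (fun y => ?_) x
  refine Fin.cases h1 (fun j => ?_) y
  exact h j

lemma twistHom_comp {N : ℕ} (p q : Fin 2 × Fin N → ℤ) :
    (twistHom p).comp (twistHom q) = twistHom (p + q) := by
  apply FreeGroup.ext_hom
  intro x
  induction x using fin_cases2 with
  | h0 => simp only [MonoidHom.comp_apply, twistHom_a]
  | h1 => simp only [MonoidHom.comp_apply, twistHom_b]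
  | h j =>
    simp only [MonoidHom.comp_apply, twistHom_a, twistHom_b, twistHom_y, map_mul, map_zpow,
      Pi.add_apply, _root_.zpow_add, mul_assoc]
    rw [← mul_assoc (FreeGroup.of (0 : Fin (N + 2)) ^ q (0, j)),
      ← _root_.zpow_add, ← _root_.zpow_add, add_comm (q (0, j)), _root_.zpow_add, mul_assoc,
      _root_.zpow_add]

lemma twistHom_zero {N : ℕ} : twistHom (0 : Fin 2 × Fin N → ℤ) = MonoidHom.id _ := by
  apply FreeGroup.ext_hom
  intro x
  induction x using fin_cases2 with
  | h0 => simp [twistHom_a]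
  | h1 => simp [twistHom_b]
  | h j => simp [twistHom_y]

/-- The automorphism of the free group on `a = x_0`, `b = x_1` and `y_j = x_(j+2)` fixing `a` and
`b` and sending `y_j` to `a ^ p_(0,j) * y_j * b ^ p_(1,j)`. -/
def twistAut {N : ℕ} (p : Fin 2 × Fin N → ℤ) : MulAut (FreeGroup (Fin (N + 2))) :=
  MonoidHom.toMulEquiv (twistHom p) (twistHom (-p))
    (by rw [twistHom_comp, neg_add_cancel, twistHom_zero])
    (by rw [twistHom_comp, add_neg_cancel, twistHom_zero])

variable (N : ℕ) in
/-- The homomorphism `ℤ^(2 × N) → Out(F_(N+2))` sending `p` to the class of the automorphism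
fixing `a` and `b` and sending `y_j` to `a ^ p_(0,j) * y_j * b ^ p_(1,j)`. -/
def twistOut : Multiplicative (Fin 2 × Fin N → ℤ) →* OutAut (FreeGroup (Fin (N + 2))) :=
  (QuotientGroup.mk' _).comp
    { toFun := fun p => twistAut p.toAdd
      map_one' := by
        apply MulEquiv.ext
        intro x
        exact DFunLike.congr_fun (twistHom_zero (N := N)) x
      map_mul' := fun p q => by
        apply MulEquiv.ext
        intro x
        exact (DFunLike.congr_fun (twistHom_comp p.toAdd q.toAdd) x).symm }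

/-- Relabelling of the indices. -/
def relabel (N : ℕ) : Fin (N + 2) ≃ Fin 2 ⊕ Fin N where
  toFun := Fin.cons (Sum.inl 0) (Fin.cons (Sum.inl 1) Sum.inr)
  invFun := Sum.elim ![0, 1] (fun j => j.succ.succ)
  left_inv := by
    intro x
    induction x using fin_cases2 with
    | h0 => rfl
    | h1 => rfl
    | h j => rfl
  right_inv := by
    intro x
    rcases x with i | j
    · fin_cases i <;> rfl
    · rfl

/-- Relabelling of matrices. -/
def relabelGL (N : ℕ) : GL (Fin (N + 2)) ℤ →* GL (Fin 2 ⊕ Fin N) ℤ :=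
  Units.map (Matrix.reindexAlgEquiv ℤ ℤ (relabel N)).toMonoidHom

lemma relabel_rho_twistOut {N : ℕ} (p : Multiplicative (Fin 2 × Fin N → ℤ)) :
    relabelGL N (rho (Fin (N + 2)) (twistOut N p)) =
      uGL (Matrix.of fun c j => p.toAdd (c, j)) := by
  apply Units.ext
  ext x y
  change (expVec (Fin (N + 2)) (twistHom p.toAdd (FreeGroup.of ((relabel N).symm y)))).toAdd
    ((relabel N).symm x) = _
  have hneA : ∀ j : Fin N, (0 : Fin (N + 2)) ≠ j.succ.succ := fun j => (Fin.succ_ne_zero _).symm
  have hneB : ∀ j : Fin N, (1 : Fin (N + 2)) ≠ j.succ.succ := fun j h => by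
    have := congrArg Fin.val h
    simp at this
  have hneA' : ∀ j : Fin N, j.succ.succ ≠ (0 : Fin (N + 2)) := fun j => Fin.succ_ne_zero _
  have hneB' : ∀ j : Fin N, j.succ.succ ≠ (1 : Fin (N + 2)) := fun j => (hneB j).symm
  have h01 : (0 : Fin (N + 2)) ≠ 1 := by simp
  have h10 : (1 : Fin (N + 2)) ≠ 0 := by simp
  have hof : ∀ i : Fin (N + 2), expVec (Fin (N + 2)) (FreeGroup.of i) =
      Multiplicative.ofAdd (Pi.single i 1) := fun i => by simp [expVec]
  rcases y with i | j
  · have hi : twistHom p.toAdd (FreeGroup.of ((relabel N).symm (Sum.inl i))) =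
        FreeGroup.of ((relabel N).symm (Sum.inl i)) := by
      fin_cases i
      · exact twistHom_a _
      · exact twistHom_b _
    rw [hi, hof, toAdd_ofAdd]
    have h1 : (uGL (Matrix.of fun c j => p.toAdd (c, j))).val x (Sum.inl i) =
        if x = Sum.inl i then 1 else 0 := by
      rcases x with x | x <;> simp [uGL, Matrix.one_apply]
    rw [h1, Pi.single_apply]
    congr 1
    apply propext
    rw [(relabel N).symm.injective.eq_iff]
  · have hj : (relabel N).symm (Sum.inr j) = j.succ.succ := rfl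
    have hj2 : (expVec (Fin (N + 2)) (twistHom p.toAdd (FreeGroup.of j.succ.succ))).toAdd =
        p.toAdd (0, j) • Pi.single 0 1 + Pi.single j.succ.succ 1 +
          p.toAdd (1, j) • Pi.single 1 1 := by
      rw [twistHom_y]
      simp only [map_mul, map_zpow, toAdd_mul, toAdd_zpow, hof, toAdd_ofAdd]
    rw [hj, hj2]
    rcases x with x | x
    · fin_cases x
      · have hx : (relabel N).symm (Sum.inl ((fun i => i) ⟨0, by norm_num⟩ : Fin 2)) = 0 := rfl
        rw [hx]
        simp [uGL, hneA, h01]
      · have hx : (relabel N).symm (Sum.inl ((fun i => i) ⟨1, by norm_num⟩ : Fin 2)) = 1 := rfl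
        rw [hx]
        simp [uGL, hneB, h10]
    · have hx : (relabel N).symm (Sum.inr x) = x.succ.succ := rfl
      rw [hx]
      simp [uGL, Matrix.one_apply, Pi.single_apply, hneA', hneB']

/-- The class in `H_(4k)(Out(F_(2k+2)); ℚ)` of the torus
`y_j ↦ a ^ p_(0,j) * y_j * b ^ p_(1,j)`, `j = 1, ..., 2k`. -/
noncomputable def moritaTorus (k : ℕ) :
    HQ (OutAut (FreeGroup (Fin (2 * k + 2)))) (2 * (2 * k)) :=
  mapQ (twistOut (2 * k)) (2 * (2 * k)) (fundClass finProdFinEquiv.symm)

theorem rho_moritaTorus_ne_zero (k : ℕ) (hk : 2 ≤ k) :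
    mapQ (rho (Fin (2 * k + 2))) (2 * (2 * k)) (moritaTorus k) ≠ 0 := by
  intro h0
  have h1 := congrArg (mapQ (relabelGL (2 * k)) (2 * (2 * k))) h0
  rw [map_zero] at h1
  rw [moritaTorus, fundClass, mapQ_torusClass, mapQ_torusClass, mapQ_torusClass] at h1
  have h : (relabelGL (2 * k)) ∘ (rho (Fin (2 * k + 2))) ∘ (twistOut (2 * k)) ∘
      (fun i : Fin (2 * (2 * k)) => Multiplicative.ofAdd
        (Pi.single (finProdFinEquiv.symm i) 1 : Fin 2 × Fin (2 * k) → ℤ)) =
      tGL (finProdFinEquiv.symm : Fin (2 * (2 * k)) ≃ Fin 2 × Fin (2 * k)) := by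
    funext i
    simp only [Function.comp_apply]
    rw [relabel_rho_twistOut, tGL]
    congr 1
    ext c j
    simp only [toAdd_ofAdd, Matrix.of_apply, Matrix.single_apply, Pi.single_apply]
    congr 1
    apply propext
    rw [Prod.ext_iff]
    exact ⟨fun h => ⟨h.1.symm, h.2.symm⟩, fun h => ⟨h.1.symm, h.2.symm⟩⟩
  have key : ∀ (t t' : Fin (2 * (2 * k)) → GL (Fin 2 ⊕ Fin (2 * k)) ℤ) (h : t = t')
      (ht : ∀ i j, Commute (t i) (t j)) (ht' : ∀ i j, Commute (t' i) (t' j)),
      torusClass t ht = 0 → torusClass t' ht' = 0 := by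
    intro t t' h ht ht' hne
    subst h
    exact hne
  have hc : ∀ i j, Commute (tGL (finProdFinEquiv.symm : Fin (2 * (2 * k)) ≃ Fin 2 × Fin (2 * k)) i)
      (tGL finProdFinEquiv.symm j) := by
    intro i j
    rw [Commute, SemiconjBy, tGL, tGL, ← uGL_add, ← uGL_add, add_comm]
  have h2 := key _ _ h _ hc h1
  refine unipotent_torus_ne_zero _ ?_ ?_ ?_ ?_ ?_ hc h2
  · simp
  · simp
  · simp
  · simp; omega
  · simp; omega

end tori

end Pool.Agent.H70
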